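import Pool.Agent.N208.LC.Stm2

/-!
The complexification of the special unitary Lie algebra (project LC, part AP2).
-/

set_option autoImplicit false

open Module TensorProduct

noncomputable section

namespace Pool.Agent.N738.LCAP2

open Pool.Agent.W516.DR Pool.Agent.Y102 Pool.Agent.N208.LC Pool.Agent.N208.BT

section Gen

variable {W : Type} [AddCommGroup W] [Module ℚ W] [FiniteDimensional ℚ W]

theorem trace_cmpE (lam : ℂ →ₗ[ℚ] ℚ) (Y : Module.End ℂ (ℂ ⊗[ℚ] W)) :
    LinearMap.trace ℚ W (cmpE lam Y) = lam (LinearMap.trace ℂ (ℂ ⊗[ℚ] W) Y) := by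
  classical
  let b := Module.finBasis ℚ W
  have h2 : ∀ (z : ℂ ⊗[ℚ] W) q, b.repr (cmp lam z) q = lam ((b.baseChange ℂ).repr z q) := by
    intro z q
    induction z with
    | zero => simp only [map_zero, Finsupp.zero_apply]
    | add z z' h h' => simp only [map_add, Finsupp.add_apply, h, h']
    | tmul a w =>
      rw [cmp_tmul, map_smul, Finsupp.smul_apply, Basis.baseChange_repr_tmul]
      rw [map_smul, smul_eq_mul, smul_eq_mul, mul_comm]
  rw [LinearMap.trace_eq_matrix_trace ℚ b, LinearMap.trace_eq_matrix_trace ℂ (b.baseChange ℂ),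
    Matrix.trace, Matrix.trace, map_sum]
  refine Finset.sum_congr rfl fun p _ => ?_
  rw [Matrix.diag_apply, Matrix.diag_apply, LinearMap.toMatrix_apply, LinearMap.toMatrix_apply,
    cmpE_apply, h2, Basis.baseChange_apply]

theorem cmpE_mul_bc (lam : ℂ →ₗ[ℚ] ℚ) (Y : Module.End ℂ (ℂ ⊗[ℚ] W)) (P : Module.End ℚ W) :
    cmpE lam (Y * P.baseChange ℂ) = cmpE lam Y * P := by
  refine LinearMap.ext fun w => ?_
  rw [cmpE_apply, Module.End.mul_apply, Module.End.mul_apply, cmpE_apply,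
    LinearMap.baseChange_tmul]

omit [FiniteDimensional ℚ W] in
theorem aeval_bc (z : Module.End ℚ W) (q : Polynomial ℚ) :
    (Polynomial.aeval z q).baseChange ℂ =
      Polynomial.aeval (z.baseChange ℂ) (q.map (algebraMap ℚ ℂ)) := by
  rw [Polynomial.aeval_map_algebraMap]
  exact (Polynomial.aeval_algHom_apply (Module.End.baseChangeHom ℚ ℂ W) z q).symm

theorem gen (om : W →ₗ[ℚ] W →ₗ[ℚ] ℚ) (S U : Submodule ℚ (Module.End ℚ W)) (z : Module.End ℚ W)
    (hU : ∀ X ∈ S, (∀ u v, om (X u) v + om u (X v) = 0) →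
      (∀ q : Polynomial ℚ, LinearMap.trace ℚ W (X * Polynomial.aeval z q) = 0) → X ∈ U)
    (X : Module.End ℂ (ℂ ⊗[ℚ] W)) (hX : X ∈ extEnd ℂ (fun P => P ∈ S))
    (hsk : ∀ u v, LinearMap.BilinForm.baseChange ℂ om (X u) v +
      LinearMap.BilinForm.baseChange ℂ om u (X v) = 0)
    (htr : ∀ q : Polynomial ℂ, LinearMap.trace ℂ (ℂ ⊗[ℚ] W)
      (X * Polynomial.aeval (z.baseChange ℂ) q) = 0) : X ∈ extEnd ℂ (fun P => P ∈ U) := by
  have hω : ∀ u v : W, LinearMap.BilinForm.baseChange ℂ om ((1 : ℂ) ⊗ₜ[ℚ] u)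
      ((1 : ℂ) ⊗ₜ[ℚ] v) = algebraMap ℚ ℂ (om u v) := by
    intro u v
    rw [LinearMap.BilinForm.baseChange_tmul, mul_one, Algebra.smul_def, mul_one]
  refine end_mem_span (fun P => P ∈ U) X fun lam => ?_
  refine hU _ (cmp_of_ext S hX lam) (fun u v => ?_) fun q => ?_
  · rw [cmpE_apply, cmpE_apply, ← lam_omega om _ hω, ← lam_omega' om _ hω, ← map_add, hsk,
      map_zero]
  · rw [← cmpE_mul_bc, trace_cmpE, aeval_bc, htr, map_zero]

end Gen

/-- **LC/AP2.** -/
theorem main : S_AP2 := by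
  intro g A z N _ X hX hsk htr
  exact gen A.om (CB A) (UU A z) z (fun Y h1 h2 h3 => ⟨h1, h2, h3⟩) X hX hsk htr

end Pool.Agent.N738.LCAP2

end
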