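import Pool.Agent.N738.FQ_BIN

/-!
Project FQ (helper212), part ORD: the order of a group acting freely on a hypersurface divides its
degree.
-/

set_option autoImplicit false

namespace Pool.Agent.N738.FQ

open MvPolynomial

/-- every plane contains a zero of a form of positive degree -/
theorem exists_zero {M d : ℕ} (hd : 1 ≤ d) {f : MvPolynomial (Fin M) ℂ} (hf : f.IsHomogeneous d)
    {a b : Fin M → ℂ} (hli : LinearIndependent ℂ ![a, b]) :
    ∃ s t : ℂ, s • a + t • b ≠ 0 ∧ eval (s • a + t • b) f = 0 := by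
  have hne : ∀ s t : ℂ, s ≠ 0 ∨ t ≠ 0 → s • a + t • b ≠ 0 := by
    intro s t hst h
    obtain ⟨h1, h2⟩ := LinearIndependent.pair_iff.1 hli s t h
    rcases hst with h3 | h3
    · exact h3 h1
    · exact h3 h2
  by_cases hdeg : (ln a b f).degree = 0
  · -- a constant
    obtain ⟨c, hc⟩ : ∃ c, ln a b f = Polynomial.C c :=
      ⟨_, Polynomial.eq_C_of_degree_eq_zero hdeg⟩
    have hv : ∀ t : ℂ, eval (a + t • b) f = c := by
      intro t
      rw [← eval_ln, hc, Polynomial.eval_C]
    have hv2 : ∀ s : ℂ, s ≠ 0 → eval (b + s • a) f = s ^ d * c := by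
      intro s hs
      have h1 : b + s • a = s • (a + s⁻¹ • b) := by
        rw [smul_add, smul_smul, mul_inv_cancel₀ hs, one_smul, add_comm]
      rw [h1, eval_smul_of hf, hv]
    have h2 : ln b a f = Polynomial.X ^ d * Polynomial.C c := by
      refine Polynomial.eq_of_infinite_eval_eq _ _ ?_
      refine Set.Infinite.mono ?_ (Set.Infinite.sdiff (Set.infinite_univ (α := ℂ))
        (Set.finite_singleton (0 : ℂ)))
      intro r hr
      have hr0 : r ≠ 0 := fun h => hr.2 (by simpa using h)
      show (ln b a f).eval r = (Polynomial.X ^ d * Polynomial.C c).eval r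
      rw [eval_ln, hv2 r hr0, Polynomial.eval_mul, Polynomial.eval_pow, Polynomial.eval_X,
        Polynomial.eval_C]
    refine ⟨0, 1, hne 0 1 (Or.inr one_ne_zero), ?_⟩
    have h3 := eval_ln b a f 0
    rw [h2, zero_smul, add_zero] at h3
    rw [zero_smul, zero_add, one_smul, ← h3]
    have h4 : d ≠ 0 := by omega
    simp [h4]
  · obtain ⟨t, ht⟩ := IsAlgClosed.exists_root _ hdeg
    refine ⟨1, t, hne 1 t (Or.inl one_ne_zero), ?_⟩
    rw [one_smul, ← eval_ln]
    exact ht

/-- two independent eigenvectors of a finite order map -/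
theorem two_eig {M k : ℕ} (hM : 2 ≤ M) (hk : 0 < k) (A : Module.End ℂ (Fin M → ℂ))
    (hA : A ^ k = 1) : ∃ (x y : Fin M → ℂ) (μ ν : ℂ), LinearIndependent ℂ ![x, y] ∧
      A x = μ • x ∧ A y = ν • y := by
  haveI : Nonempty (Fin M) := ⟨⟨0, by omega⟩⟩
  have hss : A.IsSemisimple := by
    refine Module.End.isSemisimple_of_squarefree_aeval_eq_zero (p := Polynomial.X ^ k - 1) ?_ ?_
    · refine Polynomial.Separable.squarefree ?_
      rw [Polynomial.X_pow_sub_one_separable_iff]
      exact_mod_cast hk.ne'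
    · simp [hA]
  obtain ⟨μ, hμ⟩ := Module.End.exists_eigenvalue A
  obtain ⟨x, hx⟩ := hμ.exists_hasEigenvector
  have hx1 : A x = μ • x := hx.apply_eq_smul
  have hx0 : x ≠ 0 := hx.2
  have hinv : Submodule.span ℂ {x} ∈ Module.End.invtSubmodule A := by
    rw [Module.End.mem_invtSubmodule]
    rw [Submodule.span_le]
    rintro _ rfl
    show A _ ∈ Submodule.span ℂ _
    rw [hx1]
    exact Submodule.smul_mem _ _ (Submodule.mem_span_singleton_self _)
  obtain ⟨q, hq, hcompl⟩ := Module.End.isSemisimple_iff.1 hss _ hinv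
  have hqne : Nontrivial q := by
    rw [Submodule.nontrivial_iff_ne_bot]
    intro h
    have h1 := hcompl.sup_eq_top
    rw [h, sup_bot_eq] at h1
    have h2 := finrank_span_le_card (R := ℂ) ({x} : Set (Fin M → ℂ))
    rw [h1, finrank_top] at h2
    simp at h2
    omega
  have hqA : ∀ v ∈ q, A v ∈ q := fun v hv => hq hv
  obtain ⟨ν, hν⟩ := Module.End.exists_eigenvalue (A.restrict hqA)
  obtain ⟨y, hy⟩ := hν.exists_hasEigenvector
  have hy1 : A y = ν • (y : Fin M → ℂ) := by
    have h1 := congrArg (fun z : q => (z : Fin M → ℂ)) hy.apply_eq_smul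
    exact h1
  refine ⟨x, y, μ, ν, ?_, hx1, hy1⟩
  rw [LinearIndependent.pair_iff' hx0]
  intro c h
  have h1 : (y : Fin M → ℂ) ∈ Submodule.span ℂ {x} :=
    Submodule.mem_span_singleton.2 ⟨c, h⟩
  have h2 : (y : Fin M → ℂ) = 0 := by
    have h3 := hcompl.disjoint
    rw [Submodule.disjoint_def] at h3
    exact h3 _ h1 y.2
  exact hy.2 (Subtype.ext h2)

theorem t_ord : Pool.Agent.N212.FQ.S_ORD := by
  classical
  intro G _ _ M d hM hd ρ f hf hsemi hfree
  -- a group element with two independent eigenvectors with the same eigenvalue is trivial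
  have h2 : ∀ (g : G) (x y : Fin M → ℂ) (μ : ℂ), LinearIndependent ℂ ![x, y] →
      ρ g x = μ • x → ρ g y = μ • y → g = 1 := by
    intro g x y μ hli hx hy
    obtain ⟨s, t, hne, h0⟩ := exists_zero hd hf hli
    refine hfree _ hne h0 g μ ?_
    rw [map_add, map_smul, map_smul, hx, hy, smul_add, smul_comm μ s, smul_comm μ t]
  rw [← Nat.factorization_prime_le_iff_dvd (Nat.card_pos.ne') (by omega)]
  intro p hp
  rw [← hp.pow_dvd_iff_le_factorization (by omega)]
  haveI : Fact p.Prime := ⟨hp⟩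
  obtain ⟨S⟩ : Nonempty (Sylow p G) := inferInstance
  rw [← Sylow.card_eq_multiplicity S]
  rcases subsingleton_or_nontrivial S with hS | hS
  · have : Nat.card S = 1 := Nat.card_eq_one_iff_unique.2 ⟨hS, ⟨1⟩⟩
    rw [this]
    exact one_dvd _
  -- a central element
  obtain ⟨⟨z, hz⟩, hz1⟩ : ∃ z : Subgroup.center S, z ≠ 1 := by
    haveI := S.isPGroup'.center_nontrivial
    exact exists_ne 1
  have hz1' : (z : G) ≠ 1 := by
    intro h
    exact hz1 (Subtype.ext (Subtype.ext h))
  have hcomm : ∀ g : S, (g : G) * z = z * g := by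
    intro g
    have := Subgroup.mem_center_iff.1 hz g
    exact congrArg (fun w : S => (w : G)) this
  obtain ⟨x, y, μ, ν, hli, hx, hy⟩ := two_eig hM (orderOf_pos (z : G)) (ρ z) (by
    rw [← map_pow, pow_orderOf_eq_one, map_one])
  obtain ⟨hx0, hy0⟩ : x ≠ 0 ∧ y ≠ 0 := by
    constructor
    · exact hli.ne_zero 0
    · exact hli.ne_zero 1
  have hfx : eval x f ≠ 0 := fun h => hz1' (hfree x hx0 h z μ hx)
  have hfy : eval y f ≠ 0 := fun h => hz1' (hfree y hy0 h z ν hy)
  -- the eigenlines are preserved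
  have hpres : ∀ (v : Fin M → ℂ) (lam : ℂ), v ≠ 0 → ρ z v = lam • v → ∀ g : S,
      ∃ a : ℂ, ρ g v = a • v := by
    intro v lam hv0 hv g
    by_contra hcon
    push Not at hcon
    refine hz1' (h2 z v (ρ g v) lam ?_ hv ?_)
    · rw [LinearIndependent.pair_iff' hv0]
      intro a h
      exact hcon a h.symm
    · have h3 : ρ z (ρ g v) = ρ g (ρ z v) := by
        rw [← Module.End.mul_apply, ← Module.End.mul_apply, ← map_mul, ← map_mul, hcomm g]
      rw [h3, hv, map_smul]
  choose α hα using fun g => hpres x μ hx0 hx g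
  choose β hβ using fun g => hpres y ν hy0 hy g
  have hρinj : ∀ (g : S) (v : Fin M → ℂ), ρ g v = 0 → v = 0 := by
    intro g v h
    have h3 : ρ (g : G)⁻¹ (ρ g v) = v := by
      rw [← Module.End.mul_apply, ← map_mul, inv_mul_cancel, map_one, Module.End.one_apply]
    rw [← h3, h, map_zero]
  have hα0 : ∀ g, α g ≠ 0 := by
    intro g h
    have h3 := hα g
    rw [h, zero_smul] at h3
    exact hx0 (hρinj g x h3)
  have hβ0 : ∀ g, β g ≠ 0 := by
    intro g h
    have h3 := hβ g
    rw [h, zero_smul] at h3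
    exact hy0 (hρinj g y h3)
  have hmul : ∀ (v : Fin M → ℂ) (γ : S → ℂ), v ≠ 0 → (∀ g : S, ρ g v = γ g • v) →
      ∀ g h, γ (g * h) = γ g * γ h := by
    intro v γ hv0 hγ g h
    have h3 : ρ ((g * h : S) : G) v = (γ g * γ h) • v := by
      rw [Subgroup.coe_mul, map_mul, Module.End.mul_apply, hγ h, map_smul, hγ g, smul_smul,
        mul_comm]
    rw [hγ (g * h)] at h3
    exact smul_left_injective ℂ hv0 h3
  have hpow : ∀ g, α g ^ d = β g ^ d := by
    intro g
    obtain ⟨c, hc⟩ := hsemi (g : G)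
    have e1 : α g ^ d = c := by
      have h3 := hc x
      rw [hα g, eval_smul_of hf] at h3
      exact mul_right_cancel₀ hfx h3
    have e2 : β g ^ d = c := by
      have h3 := hc y
      rw [hβ g, eval_smul_of hf] at h3
      exact mul_right_cancel₀ hfy h3
    rw [e1, e2]
  haveI : NeZero d := ⟨by omega⟩
  have hroot : ∀ g, (β g / α g) ^ d = 1 := by
    intro g
    rw [div_pow, ← hpow g, div_self (pow_ne_zero _ (hα0 g))]
  let χ : S →* rootsOfUnity d ℂ := MonoidHom.mk' (fun g => rootsOfUnity.mkOfPowEq _ (hroot g)) (by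
    intro g h
    refine Subtype.ext (Units.ext ?_)
    rw [Subgroup.coe_mul, Units.val_mul, rootsOfUnity.val_mkOfPowEq_coe,
      rootsOfUnity.val_mkOfPowEq_coe, rootsOfUnity.val_mkOfPowEq_coe, hmul x α hx0 hα,
      hmul y β hy0 hβ]
    have := hα0 g
    have := hα0 h
    field_simp)
  have hχ : Function.Injective χ := by
    rw [injective_iff_map_eq_one]
    intro g hg
    have h3 : β g / α g = 1 := by
      have h4 := congrArg (fun w : rootsOfUnity d ℂ => ((w : ℂˣ) : ℂ)) hg
      have h5 : ((χ g : ℂˣ) : ℂ) = β g / α g := rootsOfUnity.val_mkOfPowEq_coe _ _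
      rw [← h5]
      exact h4
    rw [div_eq_one_iff_eq (hα0 g)] at h3
    refine Subtype.ext (h2 g x y (α g) hli (hα g) ?_)
    rw [hβ g, h3]
  have h6 := Subgroup.card_dvd_of_injective χ hχ
  rw [Complex.card_rootsOfUnity] at h6
  exact h6

end Pool.Agent.N738.FQ
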