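import Pool.Agent.N212.FQ.Stm

/-!
Project FQ (helper212), parts BIN: zeros of a form on a plane.
-/

set_option autoImplicit false

namespace Pool.Agent.N738.FQ

open MvPolynomial

/-- a form on a scaled vector -/
theorem eval_smul_of {M d : ℕ} {f : MvPolynomial (Fin M) ℂ} (hf : f.IsHomogeneous d) (s : ℂ)
    (x : Fin M → ℂ) : eval (s • x) f = s ^ d * eval x f := by
  rw [eval_eq', eval_eq', Finset.mul_sum]
  refine Finset.sum_congr rfl fun m hm => ?_
  have h1 : ∑ i, m i = d := by
    have h2 := hf (mem_support_iff.1 hm)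
    rw [← h2]
    simp [Finsupp.weight_apply, Finsupp.sum_fintype]
  have h3 : ∏ i, (s • x) i ^ m i = s ^ d * ∏ i, x i ^ m i := by
    simp only [Pi.smul_apply, smul_eq_mul, mul_pow]
    rw [Finset.prod_mul_distrib, Finset.prod_pow_eq_pow_sum, h1]
  rw [h3]
  ring

/-- the restriction of a polynomial to a line -/
noncomputable def ln {M : ℕ} (a b : Fin M → ℂ) (f : MvPolynomial (Fin M) ℂ) : Polynomial ℂ :=
  aeval (fun k => Polynomial.C (a k) + Polynomial.X * Polynomial.C (b k)) f

theorem eval_ln {M : ℕ} (a b : Fin M → ℂ) (f : MvPolynomial (Fin M) ℂ) (t : ℂ) :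
    (ln a b f).eval t = eval (a + t • b) f := by
  unfold ln
  induction f using MvPolynomial.induction_on with
  | C c => simp
  | add p q hp hq => rw [map_add, Polynomial.eval_add, hp, hq, map_add]
  | mul_X p n hp =>
    rw [map_mul, Polynomial.eval_mul, hp, map_mul]
    simp
    left
    ring

theorem natDegree_ln {M d : ℕ} {f : MvPolynomial (Fin M) ℂ} (hf : f.IsHomogeneous d)
    (a b : Fin M → ℂ) : (ln a b f).natDegree ≤ d := by
  have h := MvPolynomial.aeval_natDegree_le (m := d) (n := 1) f hf.totalDegree_le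
    (fun k => Polynomial.C (a k) + Polynomial.X * Polynomial.C (b k)) (fun i => by compute_degree)
  rw [mul_one] at h
  exact h

theorem deriv_ln {M : ℕ} (a b : Fin M → ℂ) (f : MvPolynomial (Fin M) ℂ) :
    Polynomial.derivative (ln a b f) = ∑ j, ln a b (pderiv j f) * Polynomial.C (b j) := by
  unfold ln
  induction f using MvPolynomial.induction_on with
  | C c => simp
  | add p q hp hq =>
    rw [map_add, Polynomial.derivative_add, hp, hq, ← Finset.sum_add_distrib]
    refine Finset.sum_congr rfl fun j _ => ?_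
    rw [map_add, map_add, add_mul]
  | mul_X p n hp =>
    have h1 : ∀ j, aeval (fun k => Polynomial.C (a k) + Polynomial.X * Polynomial.C (b k))
        (pderiv j (p * X n)) * Polynomial.C (b j) =
        aeval (fun k => Polynomial.C (a k) + Polynomial.X * Polynomial.C (b k)) (pderiv j p) *
          Polynomial.C (b j) * (Polynomial.C (a n) + Polynomial.X * Polynomial.C (b n)) +
        (if j = n then aeval (fun k => Polynomial.C (a k) + Polynomial.X * Polynomial.C (b k)) p *
          Polynomial.C (b n) else 0) := by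
      intro j
      rw [pderiv_mul, pderiv_X, map_add, map_mul, map_mul, aeval_X]
      by_cases h : j = n
      · subst h
        simp
        ring
      · rw [if_neg h, Pi.single_eq_of_ne' h]
        simp
        ring
    rw [Finset.sum_congr rfl fun j _ => h1 j, Finset.sum_add_distrib, ← Finset.sum_mul, ← hp,
      Finset.sum_ite_eq' Finset.univ n, if_pos (Finset.mem_univ _), map_mul, aeval_X,
      Polynomial.derivative_mul]
    simp

/-- a generic vector of the plane and the coordinates of the given vectors -/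
theorem coords {M d : ℕ} {f : MvPolynomial (Fin M) ℂ} (hf : f.IsHomogeneous d)
    {P : Submodule ℂ (Fin M → ℂ)} (hP : Module.finrank ℂ P = 2) {K : ℕ} (hK : 0 < K)
    {x : Fin K → Fin M → ℂ} (hx : ∀ i, x i ∈ P) (hx0 : ∀ i, x i ≠ 0)
    (hxx : ∀ i j, i ≠ j → ∀ t : ℂ, x i ≠ t • x j) (hy : ∃ y ∈ P, eval y f ≠ 0) :
    ∃ a b : Fin M → ℂ, a ∈ P ∧ b ∈ P ∧ ln a b f ≠ 0 ∧ ∃ s t : Fin K → ℂ,
      (∀ i, s i ≠ 0) ∧ (∀ i, x i = s i • (a + t i • b)) ∧ Function.Injective t := by
  classical
  -- the generic vector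
  obtain ⟨b, hb⟩ : ∃ b : P, ∀ i, b ∉ Submodule.span ℂ {(⟨x i, hx i⟩ : P)} := by
    by_contra hcon
    push Not at hcon
    have hcov : (⋃ i, ((Submodule.span ℂ {(⟨x i, hx i⟩ : P)} : Submodule ℂ P) : Set P)) =
        Set.univ := by
      rw [Set.eq_univ_iff_forall]
      intro b
      obtain ⟨i, hi⟩ := hcon b
      exact Set.mem_iUnion.2 ⟨i, hi⟩
    obtain ⟨i, hi⟩ := Subspace.exists_eq_top_of_iUnion_eq_univ hcov
    have h1 := finrank_span_le_card (R := ℂ) ({(⟨x i, hx i⟩ : P)} : Set P)
    rw [hi, finrank_top, hP] at h1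
    simp at h1
  have hbs : ∀ i (c : ℂ), (b : Fin M → ℂ) ≠ c • x i := by
    intro i c h
    refine hb i (Submodule.mem_span_singleton.2 ⟨c, Subtype.ext ?_⟩)
    rw [h]
    rfl
  obtain ⟨i0, hi0⟩ : ∃ i0 : Fin K, i0 = ⟨0, hK⟩ := ⟨_, rfl⟩
  have hb0 : (b : Fin M → ℂ) ≠ 0 := by
    intro h
    exact hbs i0 (0 : ℂ) (by rw [h, zero_smul])
  have hli : LinearIndependent ℂ ![x i0, (b : Fin M → ℂ)] := by
    rw [LinearIndependent.pair_iff' (hx0 i0)]
    intro c h
    exact hbs i0 c h.symm
  have hspan : ∀ y ∈ P, ∃ s t : ℂ, s • x i0 + t • (b : Fin M → ℂ) = y := by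
    have h1 : Submodule.span ℂ (Set.range ![x i0, (b : Fin M → ℂ)]) = P := by
      refine Submodule.eq_of_le_of_finrank_le ?_ ?_
      · rw [Submodule.span_le]
        rintro _ ⟨i, rfl⟩
        fin_cases i
        · exact hx i0
        · exact b.2
      · rw [hP, finrank_span_eq_card hli]
        simp
    intro y hy
    rw [← h1, Matrix.range_cons, Matrix.range_cons, Matrix.range_empty, Set.union_empty,
      Set.singleton_union, Submodule.mem_span_pair] at hy
    exact hy
  have hline : ln (x i0) (b : Fin M → ℂ) f ≠ 0 := by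
    intro h0
    have hv : ∀ t : ℂ, eval (x i0 + t • (b : Fin M → ℂ)) f = 0 := by
      intro t
      rw [← eval_ln, h0, Polynomial.eval_zero]
    have hv2 : ∀ s t : ℂ, s ≠ 0 → eval (s • x i0 + t • (b : Fin M → ℂ)) f = 0 := by
      intro s t hs
      have h1 : s • x i0 + t • (b : Fin M → ℂ) = s • (x i0 + (t / s) • (b : Fin M → ℂ)) := by
        rw [smul_add, smul_smul, mul_div_cancel₀ t hs]
      rw [h1, eval_smul_of hf, hv, mul_zero]
    obtain ⟨y, hyP, hy⟩ := hy
    obtain ⟨s, t, rfl⟩ := hspan y hyP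
    apply hy
    by_cases hs : s = 0
    · have h2 : ln (t • (b : Fin M → ℂ)) (x i0) f = 0 := by
        refine Polynomial.eq_zero_of_infinite_isRoot _ ?_
        refine Set.Infinite.mono ?_ (Set.Infinite.sdiff (Set.infinite_univ (α := ℂ))
          (Set.finite_singleton (0 : ℂ)))
        intro r hr
        have hr0 : r ≠ 0 := fun h => hr.2 (by simpa using h)
        show (ln (t • (b : Fin M → ℂ)) (x i0) f).eval r = 0
        rw [eval_ln, add_comm]
        exact hv2 r t hr0
      have h3 := eval_ln (t • (b : Fin M → ℂ)) (x i0) f 0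
      rw [h2, Polynomial.eval_zero, zero_smul, add_zero] at h3
      rw [hs, zero_smul, zero_add]
      exact h3.symm
    · exact hv2 s t hs
  have hst : ∀ i, ∃ s t : ℂ, s ≠ 0 ∧ x i = s • (x i0 + t • (b : Fin M → ℂ)) := by
    intro i
    obtain ⟨s, t, h⟩ := hspan (x i) (hx i)
    have hs : s ≠ 0 := by
      intro hs
      rw [hs, zero_smul, zero_add] at h
      have ht : t ≠ 0 := by
        intro ht
        rw [ht, zero_smul] at h
        exact hx0 i h.symm
      refine hbs i t⁻¹ ?_
      rw [← h, smul_smul, inv_mul_cancel₀ ht, one_smul]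
    refine ⟨s, t / s, hs, ?_⟩
    rw [smul_add, smul_smul, mul_div_cancel₀ t hs, h]
  choose s t hs hst using hst
  refine ⟨x i0, b, hx i0, b.2, hline, s, t, hs, hst, fun i j hij => ?_⟩
  by_contra hne
  refine hxx i j hne (s i / s j) ?_
  rw [hst i, hst j, hij, smul_smul, div_mul_cancel₀ _ (hs j)]

theorem root {M d : ℕ} {f : MvPolynomial (Fin M) ℂ} (hf : f.IsHomogeneous d)
    {a b x : Fin M → ℂ} {s t : ℂ} (hs : s ≠ 0) (hx : x = s • (a + t • b)) (h0 : eval x f = 0) :
    (ln a b f).IsRoot t := by
  show (ln a b f).eval t = 0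
  rw [eval_ln]
  rw [hx, eval_smul_of hf] at h0
  exact (mul_eq_zero.1 h0).resolve_left (pow_ne_zero _ hs)

theorem t_bin : Pool.Agent.N212.FQ.S_BIN := by
  classical
  intro M d f hf P hP K x hx hx0 hxx hfx hy
  rcases Nat.eq_zero_or_pos K with rfl | hK
  · exact Nat.zero_le _
  obtain ⟨a, b, -, -, hl, s, t, hs, hst, htinj⟩ := coords hf hP hK hx hx0 hxx hy
  have h1 : (Finset.univ.image t).card ≤ (ln a b f).natDegree := by
    refine Polynomial.card_le_degree_of_subset_roots fun r hr => ?_
    rw [Finset.mem_val, Finset.mem_image] at hr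
    obtain ⟨i, -, rfl⟩ := hr
    rw [Polynomial.mem_roots hl]
    exact root hf (hs i) (hst i) (hfx i)
  rw [Finset.card_image_of_injective _ htinj, Finset.card_univ, Fintype.card_fin] at h1
  exact h1.trans (natDegree_ln hf a b)

theorem t_bin2 : Pool.Agent.N212.FQ.S_BIN2 := by
  classical
  intro M d f hf P hP K x u hx hx0 hxx hfx hu hux hder hy
  rcases Nat.eq_zero_or_pos K with rfl | hK
  · exact Nat.zero_le _
  obtain ⟨a, b, -, hbP, hl, s, t, hs, hst, htinj⟩ := coords hf hP hK hx hx0 hxx hy
  -- the derivatives vanish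
  have hroot' : ∀ i, (Polynomial.derivative (ln a b f)).IsRoot (t i) := by
    intro i
    have hli : LinearIndependent ℂ ![x i, u i] := by
      rw [LinearIndependent.pair_iff' (hx0 i)]
      intro c h
      exact hux i c h.symm
    obtain ⟨α, β, hαβ⟩ : ∃ α β : ℂ, α • x i + β • u i = b := by
      have h1 : Submodule.span ℂ (Set.range ![x i, u i]) = P := by
        refine Submodule.eq_of_le_of_finrank_le ?_ ?_
        · rw [Submodule.span_le]
          rintro _ ⟨k, rfl⟩
          fin_cases k
          · exact hx i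
          · exact hu i
        · rw [hP, finrank_span_eq_card hli]
          simp
      rw [← h1, Matrix.range_cons, Matrix.range_cons, Matrix.range_empty, Set.union_empty,
        Set.singleton_union, Submodule.mem_span_pair] at hbP
      exact hbP
    have heul : ∑ j, eval (x i) (pderiv j f) * x i j = 0 := by
      have h2 := congrArg (eval (x i)) hf.sum_X_mul_pderiv
      rw [map_sum] at h2
      have h3 : ∑ j, eval (x i) (pderiv j f) * x i j =
          ∑ j, eval (x i) (X j * pderiv j f) := by
        refine Finset.sum_congr rfl fun j _ => ?_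
        rw [map_mul, eval_X, mul_comm]
      rw [h3, h2, map_nsmul, hfx i, smul_zero]
    have hb : ∑ j, eval (x i) (pderiv j f) * b j = 0 := by
      have h4 : ∀ j, eval (x i) (pderiv j f) * b j = α * (eval (x i) (pderiv j f) * x i j) +
          β * (eval (x i) (pderiv j f) * u i j) := by
        intro j
        rw [← hαβ]
        simp only [Pi.add_apply, Pi.smul_apply, smul_eq_mul]
        ring
      rw [Finset.sum_congr rfl fun j _ => h4 j, Finset.sum_add_distrib, ← Finset.mul_sum,
        ← Finset.mul_sum, heul, hder i, mul_zero, mul_zero, add_zero]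
    have h5 : ∀ j, eval (x i) (pderiv j f) = s i ^ (d - 1) *
        eval (a + t i • b) (pderiv j f) := by
      intro j
      rw [← eval_smul_of hf.pderiv, ← hst i]
    show (Polynomial.derivative (ln a b f)).eval (t i) = 0
    rw [deriv_ln, Polynomial.eval_finsetSum]
    have h6 : s i ^ (d - 1) * ∑ j, (ln a b (pderiv j f) * Polynomial.C (b j)).eval (t i) = 0 := by
      rw [← hb, Finset.mul_sum]
      refine Finset.sum_congr rfl fun j _ => ?_
      rw [Polynomial.eval_mul, Polynomial.eval_C, eval_ln, h5 j]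
      ring
    exact (mul_eq_zero.1 h6).resolve_left (pow_ne_zero _ (hs i))
  have hdvd : ∏ i, (Polynomial.X - Polynomial.C (t i)) ^ 2 ∣ ln a b f := by
    refine Finset.prod_dvd_of_coprime (fun i _ j _ hij => ?_) fun i _ => ?_
    · exact (Polynomial.isCoprime_X_sub_C_of_isUnit_sub
        (sub_ne_zero.2 fun h => hij (htinj h)).isUnit).pow
    · have h7 : 1 < (ln a b f).rootMultiplicity (t i) := by
        rw [Polynomial.one_lt_rootMultiplicity_iff_isRoot hl]
        exact ⟨root hf (hs i) (hst i) (hfx i), hroot' i⟩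
      exact (pow_dvd_pow _ h7).trans (Polynomial.pow_rootMultiplicity_dvd _ _)
  have h8 := Polynomial.natDegree_le_of_dvd hdvd hl
  have h9 : (∏ i, (Polynomial.X - Polynomial.C (t i)) ^ 2 : Polynomial ℂ).natDegree = 2 * K := by
    rw [Polynomial.natDegree_prod_of_monic _ _ fun i _ => (Polynomial.monic_X_sub_C _).pow 2]
    simp [mul_comm]
  rw [h9] at h8
  exact h8.trans (natDegree_ln hf a b)

end Pool.Agent.N738.FQ
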