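import Pool.Agent.N661.BH.Stm
import Pool.Agent.N511.BRLAW
import Pool.Agent.N901.BRLEVY

/-!
# Project BH, part ABS: the abstract law and the second moment of `QV` (helper738)

Adapted from BR/LAW (helper511) and BR/LEVY (helper901).
-/

set_option autoImplicit false
open MeasureTheory Filter Topology Complex ProbabilityTheory
open scoped ContDiff

namespace Pool.Agent.N738.BHABS

open Pool.Agent.N661.BR
open Pool.Agent.N661.BH (Dat S_ABS)
open Pool.Agent.W745.RW (W)
open Pool.Agent.Y265.RW (sy rr)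
open Pool.Agent.N511.BRLAW (comb comb_equiv ES EL cF aF wF cD aD wD comb_F comb_D symb_D aa_le
  rep_tendsto exp_lip norm_exp_I)
open Pool.Agent.N901.BRLEVY (vec coef inner_vec cont_vec co co_vec cont_co)

noncomputable section

variable {Z : Type} [MeasurableSpace Z] {P : Measure Z} {X : ℕ → ℤ → ℂ → Z → ℂ}
  {φ : ℕ → Z → ℝ} {μ : Measure MW}

/-- the values -/
def EX (X : ℕ → ℤ → ℂ → Z → ℂ) (n : ℕ) (z : Z) (b : ℤ) (w : ℂ) : ℂ := X n b w z

lemma comb_meas (d : Dat P X φ μ) {ι : Type} [Fintype ι] (c : ι → ℂ) (a : ι → ℤ) (w : ι → ℂ) :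
    ∀ᶠ n in atTop, AEStronglyMeasurable (fun z => comb (EX X n z) c a w) P := by
  have h1 : ∀ᶠ n in atTop, ∀ j, AEStronglyMeasurable (X n (a j) (w j)) P :=
    eventually_all.2 fun j => d.meas (a j) (w j)
  filter_upwards [h1] with n hn
  unfold comb
  exact Finset.aestronglyMeasurable_fun_sum _ fun j _ => (hn j).const_mul _

lemma phi_meas (d : Dat P X φ μ) (i : ℕ) : AEStronglyMeasurable (φ i) P :=
  (d.wm i).aestronglyMeasurable

lemma phi_int (d : Dat P X φ μ) (i : ℕ) : Integrable (φ i) P := by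
  have := d.prob
  refine Integrable.of_bound (phi_meas d i) 1 (Eventually.of_forall fun z => ?_)
  rw [Real.norm_eq_abs, abs_of_nonneg (d.w01 i z).1]
  exact (d.w01 i z).2

lemma exp_meas {Y : Z → ℂ} (hY : AEStronglyMeasurable Y P) :
    AEStronglyMeasurable (fun z => Complex.exp (I * (((Y z).re : ℝ) : ℂ))) P := by
  have h2 : Continuous fun x : ℂ => Complex.exp (I * ((x.re : ℝ) : ℂ)) := by fun_prop
  exact h2.comp_aestronglyMeasurable hY

lemma exp_int (d : Dat P X φ μ) {Y : Z → ℂ} (hY : AEStronglyMeasurable Y P) :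
    Integrable (fun z => Complex.exp (I * (((Y z).re : ℝ) : ℂ))) P := by
  have := d.prob
  exact Integrable.of_bound (exp_meas hY) 1 (Eventually.of_forall fun z => (norm_exp_I _).le)

lemma phi_exp_int (d : Dat P X φ μ) (i : ℕ) {Y : Z → ℂ} (hY : AEStronglyMeasurable Y P) :
    Integrable (fun z => (φ i z : ℂ) * Complex.exp (I * (((Y z).re : ℝ) : ℂ))) P := by
  have := d.prob
  refine Integrable.of_bound ((Complex.continuous_ofReal.comp_aestronglyMeasurable
    (phi_meas d i)).mul (exp_meas hY)) 1 (Eventually.of_forall fun z => ?_)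
  rw [norm_mul, norm_exp_I, mul_one, Complex.norm_real, Real.norm_eq_abs,
    abs_of_nonneg (d.w01 i z).1]
  exact (d.w01 i z).2

lemma comb_int (d : Dat P X φ μ) (i : ℕ) {ι : Type} [Fintype ι] (c : ι → ℂ) (a : ι → ℤ)
    (w : ι → ℂ) :
    ∀ᶠ n in atTop, Integrable (fun z => φ i z * ‖comb (EX X n z) c a w‖ ^ 2) P := by
  have h1 : ∀ᶠ n in atTop, ∀ j, Integrable (fun z => φ i z * ‖X n (a j) (w j) z‖ ^ 2) P :=
    eventually_all.2 fun j => d.isoInt i (a j) (w j)
  filter_upwards [h1, comb_meas d c a w] with n hn hm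
  have h2 : Integrable (fun z => (∑ j, ‖c j‖ ^ 2 * (φ i z * ‖X n (a j) (w j) z‖ ^ 2)) *
      (Fintype.card ι : ℝ)) P :=
    (integrable_finsetSum _ fun j _ => (hn j).const_mul _).mul_const _
  refine h2.mono' ((phi_meas d i).mul (hm.norm.pow 2)) (Eventually.of_forall fun z => ?_)
  have hφ := (d.w01 i z).1
  rw [Real.norm_eq_abs, abs_of_nonneg (by positivity)]
  have h3 : ‖comb (EX X n z) c a w‖ ^ 2 ≤
      (∑ j, ‖c j‖ ^ 2 * ‖X n (a j) (w j) z‖ ^ 2) * (Fintype.card ι : ℝ) := by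
    have h4 : ‖comb (EX X n z) c a w‖ ≤ ∑ j, ‖c j * X n (a j) (w j) z‖ := norm_sum_le _ _
    have h5 : (∑ j, ‖c j * X n (a j) (w j) z‖) ^ 2 ≤
        (Fintype.card ι : ℝ) * ∑ j, ‖c j * X n (a j) (w j) z‖ ^ 2 := by
      have := sq_sum_le_card_mul_sum_sq (s := (Finset.univ : Finset ι))
        (f := fun j => ‖c j * X n (a j) (w j) z‖)
      rwa [Finset.card_univ] at this
    calc ‖comb (EX X n z) c a w‖ ^ 2 ≤ (∑ j, ‖c j * X n (a j) (w j) z‖) ^ 2 :=
          pow_le_pow_left₀ (norm_nonneg _) h4 2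
      _ ≤ (Fintype.card ι : ℝ) * ∑ j, ‖c j * X n (a j) (w j) z‖ ^ 2 := h5
      _ = _ := by
          rw [mul_comm]
          congr 1
          refine Finset.sum_congr rfl fun j _ => ?_
          rw [norm_mul, mul_pow]
  calc φ i z * ‖comb (EX X n z) c a w‖ ^ 2 ≤
      φ i z * ((∑ j, ‖c j‖ ^ 2 * ‖X n (a j) (w j) z‖ ^ 2) * (Fintype.card ι : ℝ)) :=
        mul_le_mul_of_nonneg_left h3 hφ
    _ = _ := by
        rw [← mul_assoc, Finset.mul_sum]
        congr 1
        refine Finset.sum_congr rfl fun j _ => ?_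
        ring

lemma iso_T (d : Dat P X φ μ) (i : ℕ) {ι : Type} [Fintype ι] (c : ι → ℂ) (a : ι → ℤ)
    (w : ι → ℂ) :
    Tendsto (fun n => ∫ z, φ i z * ‖comb (EX X n z) c a w‖ ^ 2 ∂P) atTop
      (𝓝 ((1 / (2 * Real.pi) * ∫ α in (0:ℝ)..(2 * Real.pi), ‖comb (ES α) c a w‖ ^ 2) *
        ∫ z, φ i z ∂P)) := by
  set e := (Fintype.equivFin ι).symm with he
  have h1 := d.iso i _ (c ∘ e) (a ∘ e) (w ∘ e)
  have h2 : ∀ (n : ℕ) (z : Z), ∑ j, (c ∘ e) j * X n ((a ∘ e) j) ((w ∘ e) j) z =
      comb (EX X n z) c a w := fun n z => comb_equiv e (EX X n z) c a w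
  have h3 : ∀ α : ℝ, ∑ i, (c ∘ e) i * (sy α ^ ((a ∘ e) i) *
      Complex.exp ((rr ((w ∘ e) i) α : ℂ) * I)) = comb (ES α) c a w := fun α =>
    comb_equiv e (ES α) c a w
  simp_rw [h2, h3] at h1
  exact h1

/-- the approximation property -/
def Good (P : Measure Z) (X : ℕ → ℤ → ℂ → Z → ℂ) (φ : ℕ → Z → ℝ) (μ : Measure MW) {ι : Type}
    [Fintype ι] (c : ι → ℂ) (a : ι → ℤ) (w : ι → ℂ) : Prop :=
  ∀ (i : ℕ) (η : ℝ), 0 < η → ∀ᶠ n in atTop,
    ‖(∫ z, (φ i z : ℂ) * Complex.exp (I * (((comb (EX X n z) c a w).re : ℝ) : ℂ)) ∂P) -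
      ∫ f : MW, Complex.exp (I * (((comb (EL f) c a w).re : ℝ) : ℂ)) ∂μ‖ ≤
      1 - (∫ z, φ i z ∂P) + η

lemma good_T {K : ℕ}
    (H : ∀ (k : ℕ) (c : Fin k → ℂ) (a : Fin k → ℤ) (w : Fin k → ℂ), (∀ j, (a j).natAbs ≤ K) →
      Good P X φ μ c a w) {ι : Type} [Fintype ι] (c : ι → ℂ) (a : ι → ℤ) (w : ι → ℂ)
    (ha : ∀ j, (a j).natAbs ≤ K) : Good P X φ μ c a w := by
  intro i η hη
  set e := (Fintype.equivFin ι).symm with he
  have h1 := H _ (c ∘ e) (a ∘ e) (w ∘ e) (fun j => ha _) i η hη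
  have h2 : ∀ (n : ℕ) (z : Z), comb (EX X n z) (c ∘ e) (a ∘ e) (w ∘ e) =
      comb (EX X n z) c a w := fun n z => comb_equiv e (EX X n z) c a w
  have h3 : ∀ f : MW, comb (EL f) (c ∘ e) (a ∘ e) (w ∘ e) = comb (EL f) c a w :=
    fun f => comb_equiv e (EL f) c a w
  simp_rw [h2, h3] at h1
  exact h1

lemma nside (d : Dat P X φ μ) (i : ℕ) {Y Y' : Z → ℂ} (hY : AEStronglyMeasurable Y P)
    (hY' : AEStronglyMeasurable Y' P) (i4 : Integrable (fun z => φ i z * ‖Y z - Y' z‖ ^ 2) P)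
    {δ : ℝ} (hδ : 0 < δ) :
    ‖(∫ z, (φ i z : ℂ) * Complex.exp (I * (((Y z).re : ℝ) : ℂ)) ∂P) -
      ∫ z, (φ i z : ℂ) * Complex.exp (I * (((Y' z).re : ℝ) : ℂ)) ∂P‖ ≤
      δ / 2 * (∫ z, φ i z ∂P) + 1 / (2 * δ) * ∫ z, φ i z * ‖Y z - Y' z‖ ^ 2 ∂P := by
  have i1 := phi_exp_int d i hY
  have i2 := phi_exp_int d i hY'
  have i3 := phi_int d i
  rw [← integral_sub i1 i2, ← integral_const_mul, ← integral_const_mul,
    ← integral_add (i3.const_mul _) (i4.const_mul _)]
  refine norm_integral_le_of_norm_le ((i3.const_mul _).add (i4.const_mul _))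
    (Eventually.of_forall fun z => ?_)
  have hφ := (d.w01 i z).1
  rw [← mul_sub, norm_mul, Complex.norm_real, Real.norm_of_nonneg hφ]
  have h1 : ‖Complex.exp (I * (((Y z).re : ℝ) : ℂ)) - Complex.exp (I * (((Y' z).re : ℝ) : ℂ))‖ ≤
      ‖Y z - Y' z‖ := by
    refine (exp_lip _ _).trans ?_
    rw [← Complex.sub_re]
    exact Complex.abs_re_le_norm _
  have h2 : ‖Y z - Y' z‖ ≤ δ / 2 + 1 / (2 * δ) * ‖Y z - Y' z‖ ^ 2 := by
    have h3 : δ / 2 + 1 / (2 * δ) * ‖Y z - Y' z‖ ^ 2 - ‖Y z - Y' z‖ =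
        (‖Y z - Y' z‖ - δ) ^ 2 / (2 * δ) := by
      field_simp; ring
    have h4 : 0 ≤ (‖Y z - Y' z‖ - δ) ^ 2 / (2 * δ) := by positivity
    linarith
  have h5 := mul_le_mul_of_nonneg_left (h1.trans h2) hφ
  refine h5.trans (le_of_eq ?_)
  ring

lemma mass_le (d : Dat P X φ μ) (i : ℕ) : ∫ z, φ i z ∂P ≤ 1 := by
  have := d.prob
  have h1 : ∫ z, φ i z ∂P ≤ ∫ z, (1 : ℝ) ∂P :=
    integral_mono (phi_int d i) (integrable_const _) fun z => (d.w01 i z).2
  simpa using h1

/-- the induction step -/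
lemma step (d : Dat P X φ μ) (K : ℕ)
    (IH : ∀ (k : ℕ) (c : Fin k → ℂ) (a : Fin k → ℤ) (w : Fin k → ℂ), (∀ j, (a j).natAbs ≤ K) →
      Good P X φ μ c a w) (k : ℕ) (c : Fin k → ℂ) (a : Fin k → ℤ) (w : Fin k → ℂ)
    (ha : ∀ j, (a j).natAbs ≤ K + 1) : Good P X φ μ c a w := by
  have := d.prob
  have := d.prob'
  intro i η hη
  set Q : ℝ := ∫ z, φ i z ∂P with hQ
  have hQ0 : 0 ≤ Q := integral_nonneg fun z => (d.w01 i z).1
  set S : ℝ := ∑ j, ‖c j‖ with hSd
  have hS0 : 0 ≤ S := by positivity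
  set δ : ℝ := η / (4 * (Q + 1)) with hδd
  have hδ : 0 < δ := by positivity
  -- the choice of `m`
  have hm1 : ∀ᶠ m : ℕ in atTop, (S * (2 / ((m : ℝ) + 1))) ^ 2 * Q ≤ δ * η / 4 := by
    have h1 : Tendsto (fun m : ℕ => (S * (2 / ((m : ℝ) + 1))) ^ 2 * Q) atTop
        (𝓝 ((S * 0) ^ 2 * Q)) := by
      refine Tendsto.mul_const _ ((Tendsto.const_mul S ?_).pow 2)
      have := (tendsto_one_div_add_atTop_nhds_zero_nat (𝕜 := ℝ)).const_mul 2
      rw [mul_zero] at this
      refine this.congr fun m => ?_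
      ring
    rw [mul_zero, zero_pow two_ne_zero, zero_mul] at h1
    exact h1.eventually (ge_mem_nhds (by positivity))
  have hmeas : ∀ (b : ℤ) (x : ℂ), Measurable fun f : MW => EL f b x := fun b x => meas_W b x
  have hmc : ∀ {ι : Type} [Fintype ι] (c : ι → ℂ) (a : ι → ℤ) (w : ι → ℂ),
      Measurable fun f : MW => comb (EL f) c a w := by
    intro ι _ c a w
    unfold comb
    exact Finset.measurable_sum _ fun j _ => (hmeas _ _).const_mul _
  have hme : Continuous fun x : ℂ => Complex.exp (I * ((x.re : ℝ) : ℂ)) := by fun_prop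
  have hm2 : Tendsto (fun m : ℕ => ∫ f : MW, Complex.exp
      (I * (((comb (EL f) (cF K m c a) (aF K a) (wF m w)).re : ℝ) : ℂ)) ∂μ) atTop
      (𝓝 (∫ f : MW, Complex.exp (I * (((comb (EL f) c a w).re : ℝ) : ℂ)) ∂μ)) := by
    refine tendsto_integral_of_dominated_convergence (fun _ => (1 : ℝ)) ?_ (integrable_const _) ?_ ?_
    · intro m
      exact (hme.measurable.comp (hmc _ _ _)).aestronglyMeasurable
    · intro m
      exact Eventually.of_forall fun f => (norm_exp_I _).le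
    · refine Eventually.of_forall fun f => ?_
      have h1 : Tendsto (fun m : ℕ => comb (EL f) (cF K m c a) (aF K a) (wF m w)) atTop
          (𝓝 (comb (EL f) c a w)) := by
        simp_rw [comb_F]
        unfold comb
        exact tendsto_finsetSum _ fun j _ => rep_tendsto K f _ _ _
      exact (hme.tendsto _).comp h1
  have hm3 : ∀ᶠ m : ℕ in atTop, ‖(∫ f : MW, Complex.exp
      (I * (((comb (EL f) (cF K m c a) (aF K a) (wF m w)).re : ℝ) : ℂ)) ∂μ) -
      ∫ f : MW, Complex.exp (I * (((comb (EL f) c a w).re : ℝ) : ℂ)) ∂μ‖ ≤ η / 4 := by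
    have := (tendsto_iff_norm_sub_tendsto_zero.1 hm2).eventually (ge_mem_nhds (by positivity : 0 < η / 4))
    exact this
  obtain ⟨m, hm1, hm3⟩ := (hm1.and hm3).exists
  -- the approximation for the new family
  have hF := good_T IH (cF K m c a) (aF K a) (wF m w) (fun p => aa_le (ha p.1)) i (η / 4)
    (by positivity)
  -- the difference
  have hD := iso_T d i (cD K m c a) (aD K a) (wD m w)
  have hDl : (1 / (2 * Real.pi) * ∫ α in (0:ℝ)..(2 * Real.pi),
      ‖comb (ES α) (cD K m c a) (aD K a) (wD m w)‖ ^ 2) * Q ≤ δ * η / 4 := by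
    refine le_trans (mul_le_mul_of_nonneg_right ?_ hQ0) hm1
    have h1 := intervalIntegral.norm_integral_le_of_norm_le_const (a := (0:ℝ)) (b := 2 * Real.pi)
      (f := fun α => ‖comb (ES α) (cD K m c a) (aD K a) (wD m w)‖ ^ 2)
      (C := (S * (2 / ((m : ℝ) + 1))) ^ 2) (fun α _ => by
        rw [norm_pow, norm_norm]
        exact pow_le_pow_left₀ (norm_nonneg _) (symb_D K m c a w α) 2)
    rw [sub_zero, abs_of_pos (by positivity)] at h1
    have h2 := (le_abs_self _).trans h1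
    calc 1 / (2 * Real.pi) * ∫ α in (0:ℝ)..(2 * Real.pi),
          ‖comb (ES α) (cD K m c a) (aD K a) (wD m w)‖ ^ 2
        ≤ 1 / (2 * Real.pi) * ((S * (2 / ((m : ℝ) + 1))) ^ 2 * (2 * Real.pi)) :=
          mul_le_mul_of_nonneg_left h2 (by positivity)
      _ = (S * (2 / ((m : ℝ) + 1))) ^ 2 := by
          field_simp
  have hD2 : ∀ᶠ n in atTop, ∫ z, φ i z * ‖comb (EX X n z) (cD K m c a) (aD K a) (wD m w)‖ ^ 2 ∂P ≤
      δ * η / 2 := by
    have h1 : (1 / (2 * Real.pi) * ∫ α in (0:ℝ)..(2 * Real.pi),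
      ‖comb (ES α) (cD K m c a) (aD K a) (wD m w)‖ ^ 2) * Q < δ * η / 2 := by
      have : 0 < δ * η := by positivity
      linarith
    filter_upwards [hD.eventually (gt_mem_nhds h1)] with n hn using hn.le
  filter_upwards [hF, hD2, comb_meas d c a w, comb_meas d (cF K m c a) (aF K a) (wF m w),
    comb_int d i (cD K m c a) (aD K a) (wD m w)] with n hFn hDn hn1 hn2 hn3
  simp_rw [comb_D] at hDn hn3
  have hns := nside d i hn1 hn2 hn3 hδ
  set A : ℂ := ∫ z, (φ i z : ℂ) * Complex.exp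
    (I * (((comb (EX X n z) c a w).re : ℝ) : ℂ)) ∂P with hA
  set A' : ℂ := ∫ z, (φ i z : ℂ) * Complex.exp
    (I * (((comb (EX X n z) (cF K m c a) (aF K a) (wF m w)).re : ℝ) : ℂ)) ∂P with hA'
  set M : ℂ := ∫ f : MW, Complex.exp (I * (((comb (EL f) c a w).re : ℝ) : ℂ)) ∂μ with hM
  set M' : ℂ := ∫ f : MW, Complex.exp
    (I * (((comb (EL f) (cF K m c a) (aF K a) (wF m w)).re : ℝ) : ℂ)) ∂μ with hM'
  show ‖A - M‖ ≤ 1 - Q + η
  have hns' : ‖A - A'‖ ≤ δ / 2 * Q + 1 / (2 * δ) * (δ * η / 2) := by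
    refine hns.trans ?_
    gcongr
  have e1 : A - M = (A - A') + (A' - M') + (M' - M) := by ring
  rw [e1]
  have h5 : ‖A - A'‖ ≤ η / 2 := by
    calc ‖A - A'‖ ≤ δ / 2 * Q + 1 / (2 * δ) * (δ * η / 2) := hns'
      _ = δ * Q / 2 + η / 4 := by field_simp; ring
      _ ≤ η / 8 + η / 4 := by
          have h6 : δ * Q / 2 ≤ η / 8 := by
            rw [hδd]
            have h7 : η / (4 * (Q + 1)) * Q ≤ η / 4 := by
              rw [div_mul_eq_mul_div, div_le_div_iff₀ (by positivity) (by norm_num)]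
              nlinarith
            linarith
          linarith
      _ ≤ η / 2 := by linarith
  refine (norm_add_le _ _).trans ?_
  have h6 := norm_add_le (A - A') (A' - M')
  linarith

/-- all families are good -/
theorem law (d : Dat P X φ μ) (k : ℕ) (c : Fin k → ℂ) (a : Fin k → ℤ) (w : Fin k → ℂ) :
    Good P X φ μ c a w := by
  have key : ∀ K : ℕ, ∀ (k : ℕ) (c : Fin k → ℂ) (a : Fin k → ℤ) (w : Fin k → ℂ),
      (∀ j, (a j).natAbs ≤ K) → Good P X φ μ c a w := by
    intro K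
    induction K with
    | zero =>
      intro k c a w ha
      have : a = fun _ => 0 := by
        funext j
        have := ha j
        omega
      rw [this]
      intro i η hη
      exact d.law0 i k c w η hη
    | succ K ih =>
      intro k c a w ha
      exact step d K ih k c a w ha
  exact key (∑ j, (a j).natAbs) k c a w fun j =>
    Finset.single_le_sum (f := fun j => (a j).natAbs) (fun _ _ => Nat.zero_le _) (Finset.mem_univ j)

/-- weights with mass close to one -/
lemma cut (d : Dat P X φ μ) {ε : ℝ} (hε : 0 < ε) : ∃ i, 1 - ∫ z, φ i z ∂P ≤ ε := by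
  have h1 := d.wlim.eventually (lt_mem_nhds (show 1 - ε < 1 by linarith))
  obtain ⟨i, hi⟩ := h1.exists
  exact ⟨i, by linarith⟩

/-- convergence in law of the vectors -/
lemma law_conv (d : Dat P X φ μ) {k : ℕ} (a : Fin k → ℤ)
    (g : BoundedContinuousFunction (EuclideanSpace ℝ (Fin k ⊕ Fin k)) ℝ) :
    Tendsto (fun n => ∫ z, g (vec fun j => X n (a j) 0 z) ∂P)
      atTop (𝓝 (∫ f : MW, g (vec fun j => W 1 f (a j) 0) ∂μ)) := by
  classical
  have := d.prob
  have := d.prob'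
  set V : ℕ → Z → EuclideanSpace ℝ (Fin k ⊕ Fin k) :=
    fun n z => vec fun j => X n (a j) 0 z with hV
  set V' : ℕ → Z → EuclideanSpace ℝ (Fin k ⊕ Fin k) :=
    fun n => if AEMeasurable (V n) P then V n else fun _ => 0 with hV'
  set Y : MW → EuclideanSpace ℝ (Fin k ⊕ Fin k) := fun f => vec fun j => W 1 f (a j) 0 with hY
  have hVm : ∀ᶠ n in atTop, AEMeasurable (V n) P := by
    have h1 : ∀ᶠ n in atTop, ∀ j, AEStronglyMeasurable (X n (a j) 0) P :=
      eventually_all.2 fun j => d.meas (a j) 0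
    filter_upwards [h1] with n hn
    exact cont_vec.measurable.comp_aemeasurable (aemeasurable_pi_lambda _ fun j =>
      (hn j).aemeasurable)
  have hVm' : ∀ n, AEMeasurable (V' n) P := by
    intro n
    simp only [hV']
    split_ifs with h
    · exact h
    · exact aemeasurable_const
  have hVV : ∀ᶠ n in atTop, V' n = V n := by
    filter_upwards [hVm] with n hn
    simp only [hV']
    rw [if_pos hn]
  have hYm : Measurable Y :=
    cont_vec.measurable.comp (measurable_pi_lambda _ fun j => meas_W (a j) 0)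
  let Pn : ℕ → ProbabilityMeasure (EuclideanSpace ℝ (Fin k ⊕ Fin k)) := fun n =>
    ⟨P.map (V' n), Measure.isProbabilityMeasure_map (hVm' n)⟩
  let P0 : ProbabilityMeasure (EuclideanSpace ℝ (Fin k ⊕ Fin k)) :=
    ⟨μ.map Y, Measure.isProbabilityMeasure_map hYm.aemeasurable⟩
  have key : Tendsto Pn atTop (𝓝 P0) := by
    refine ProbabilityMeasure.tendsto_of_tendsto_charFun fun t => ?_
    have e1 : ∀ᶠ n in atTop, charFun (Pn n : Measure _) t = ∫ z, Complex.exp
          (I * (((∑ j, coef t j * X n (a j) 0 z).re : ℝ) : ℂ)) ∂P := by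
      filter_upwards [hVV] with n hn
      change charFun (P.map (V' n)) t = _
      rw [charFun_apply, integral_map (hVm' n) (by fun_prop)]
      refine integral_congr_ae (Eventually.of_forall fun z => ?_)
      simp only [hn]
      simp only [hV]
      rw [inner_vec, mul_comm]
    have e2 : charFun (P0 : Measure _) t = ∫ f : MW, Complex.exp
        (I * (((∑ j, coef t j * W 1 f (a j) 0).re : ℝ) : ℂ)) ∂μ := by
      change charFun (μ.map Y) t = _
      rw [charFun_apply, integral_map hYm.aemeasurable (by fun_prop)]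
      refine integral_congr_ae (Eventually.of_forall fun f => ?_)
      simp only [hY]
      rw [inner_vec, mul_comm]
    rw [e2]
    refine Tendsto.congr' (e1.mono fun n hn => hn.symm) ?_
    rw [Metric.tendsto_atTop']
    intro ε hε
    obtain ⟨i, hi⟩ := cut d (ε := ε / 4) (by positivity)
    have hg := law d k (coef t) a (fun _ => 0) i (ε / 4) (by positivity)
    have hm := comb_meas d (coef t) a (fun _ => (0 : ℂ))
    obtain ⟨N, hN⟩ := eventually_atTop.1 (hg.and hm)
    refine ⟨N, fun n hn => ?_⟩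
    obtain ⟨h1, h2⟩ := hN n hn.le
    set E : Z → ℂ := fun z =>
      Complex.exp (I * (((∑ j, coef t j * X n (a j) 0 z).re : ℝ) : ℂ)) with hE
    have hEi : Integrable E P := exp_int d h2
    have hφE : Integrable (fun z => (φ i z : ℂ) * E z) P := phi_exp_int d i h2
    have hE1 : ∀ z, ‖E z‖ = 1 := fun z => norm_exp_I _
    have h1' : ‖(∫ z, (φ i z : ℂ) * E z ∂P) - ∫ f : MW, Complex.exp
        (I * (((∑ j, coef t j * W 1 f (a j) 0).re : ℝ) : ℂ)) ∂μ‖ ≤
        1 - (∫ z, φ i z ∂P) + ε / 4 := h1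
    have h3 : ‖(∫ z, E z ∂P) - ∫ z, (φ i z : ℂ) * E z ∂P‖ ≤ 1 - ∫ z, φ i z ∂P := by
      rw [← integral_sub hEi hφE]
      have h5 : 1 - ∫ z, φ i z ∂P = ∫ z, (1 - φ i z) ∂P := by
        rw [integral_sub (integrable_const _) (phi_int d i)]
        simp
      rw [h5]
      refine norm_integral_le_of_norm_le ((integrable_const _).sub (phi_int d i))
        (Eventually.of_forall fun z => ?_)
      have : E z - (φ i z : ℂ) * E z = ((1 - φ i z : ℝ) : ℂ) * E z := by push_cast; ring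
      rw [this, norm_mul, hE1, mul_one, Complex.norm_real, Real.norm_eq_abs,
        abs_of_nonneg (by linarith [(d.w01 i z).2])]
    rw [dist_eq_norm]
    have h6 : (∫ z, E z ∂P) -
        ∫ f : MW, Complex.exp (I * (((∑ j, coef t j * W 1 f (a j) 0).re : ℝ) : ℂ)) ∂μ =
        ((∫ z, E z ∂P) - ∫ z, (φ i z : ℂ) * E z ∂P) +
        ((∫ z, (φ i z : ℂ) * E z ∂P) -
        ∫ f : MW, Complex.exp (I * (((∑ j, coef t j * W 1 f (a j) 0).re : ℝ) : ℂ)) ∂μ) := by
      ring
    rw [h6]
    refine lt_of_le_of_lt (norm_add_le _ _) ?_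
    linarith
  have h8 := (ProbabilityMeasure.tendsto_iff_forall_integral_tendsto.1 key) g
  have e3 : ∀ᶠ n in atTop, ∫ x, g x ∂(Pn n : Measure _) = ∫ z, g (vec fun j => X n (a j) 0 z) ∂P := by
    filter_upwards [hVV] with n hn
    change ∫ x, g x ∂(P.map (V' n)) = _
    rw [integral_map (hVm' n) (by fun_prop), hn]
  have e4 : ∫ x, g x ∂(P0 : Measure _) = ∫ f : MW, g (vec fun i => W 1 f (a i) 0) ∂μ := by
    change ∫ x, g x ∂(μ.map Y) = _
    rw [integral_map hYm.aemeasurable (by fun_prop)]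
  rw [e4] at h8
  exact h8.congr' e3

theorem ABS : S_ABS := by
  intro Z _ P X φ μ d v hv l
  have := d.prob
  have := d.prob'
  -- enumeration of the indices
  set s := v.support with hs
  let e : Fin s.card ≃ s := s.equivFin.symm
  let a : Fin (s.card + s.card) → ℤ :=
    Fin.append (fun i => ((e i : s) : ℤ)) (fun i => 2 * l - ((e i : s) : ℤ))
  let Q : EuclideanSpace ℝ (Fin (s.card + s.card) ⊕ Fin (s.card + s.card)) → ℂ := fun x =>
    ∑ i : Fin s.card, (v (e i) : ℂ) * (co x (Fin.castAdd _ i) * co x (Fin.natAdd _ i))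
  have hQc : Continuous Q := continuous_finsetSum _ fun i _ =>
    continuous_const.mul ((cont_co _).mul (cont_co _))
  obtain ⟨QF, hQF⟩ : ∃ QF : (ℤ → ℂ) → ℂ, ∀ x, QF x =
    ∑ j ∈ v.support, (v j : ℂ) * (x j * x (2 * l - j)) := ⟨_, fun _ => rfl⟩
  have hQV0 : ∀ x : ℤ → ℂ, Q (vec fun i => x (a i)) = QF x := by
    intro x
    simp only [Q, co_vec, a, Fin.append_left, Fin.append_right, hQF]
    rw [← hs, ← Finset.sum_coe_sort s (fun j => (v j : ℂ) * (x j * x (2 * l - j)))]
    exact Equiv.sum_comp e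
      (fun j : s => (v (j : ℤ) : ℂ) * (x (j : ℤ) * x (2 * l - (j : ℤ))))
  have hQVf : ∀ f : MW, QV v l 1 f 0 = QF fun j => W 1 f j 0 := by
    intro f
    rw [hQF]
    rfl
  -- the bound with truncation
  have key : ∀ T : ℝ, 0 ≤ T → ∫ f : MW, min (‖QV v l 1 f 0‖ ^ 2) T ∂μ ≤ KV v l := by
    intro T hT
    have hgc : Continuous fun x => min (‖Q x‖ ^ 2) T := by fun_prop
    let g : BoundedContinuousFunction
        (EuclideanSpace ℝ (Fin (s.card + s.card) ⊕ Fin (s.card + s.card))) ℝ :=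
      BoundedContinuousFunction.ofNormedAddCommGroup (fun x => min (‖Q x‖ ^ 2) T) hgc T
        (fun x => by
          rw [Real.norm_eq_abs, abs_of_nonneg (le_min (by positivity) hT)]
          exact min_le_right _ _)
    have hlim := law_conv d a g
    have hg1 : ∀ x : ℤ → ℂ, g (vec fun i => x (a i)) = min (‖QF x‖ ^ 2) T := by
      intro x
      change min (‖Q (vec fun i => x (a i))‖ ^ 2) T = _
      rw [hQV0]
    have hg2 : ∀ n z, g (vec fun i => X n (a i) 0 z) = min (‖QF fun j => X n j 0 z‖ ^ 2) T :=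
      fun n z => hg1 fun j => X n j 0 z
    have hg3 : ∀ f : MW, g (vec fun i => W 1 f (a i) 0) = min (‖QV v l 1 f 0‖ ^ 2) T := by
      intro f
      rw [hQVf]
      exact hg1 fun j => W 1 f j 0
    simp only [hg2, hg3] at hlim
    refine le_of_forall_pos_le_add fun ε hε => ?_
    set δ : ℝ := ε / (|KV v l| + T + 1) with hδ
    have hδpos : 0 < δ := by positivity
    obtain ⟨i, hr⟩ := cut d hδpos
    have hm := mass_le d i
    have hr0 : 0 ≤ 1 - ∫ z, φ i z ∂P := by linarith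
    have hq := d.quart i v hv l
    have hφi := phi_int d i
    have hb2 : ∀ᶠ n in atTop, ∫ z, min (‖QF fun j => X n j 0 z‖ ^ 2) T ∂P ≤
        (∫ z, φ i z * ‖∑ j ∈ v.support, (v j : ℂ) * (X n j 0 z * X n (2 * l - j) 0 z)‖ ^ 2 ∂P) +
          T * (1 - ∫ z, φ i z ∂P) := by
      filter_upwards [d.quartInt i v l] with n hi
      have e2 : T * (1 - ∫ z, φ i z ∂P) = ∫ z, (1 - φ i z) * T ∂P := by
        rw [integral_mul_const, integral_sub (integrable_const _) hφi]
        simp only [integral_const, smul_eq_mul, mul_one]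
        rw [probReal_univ]
        ring
      have hi2 : Integrable (fun z => (1 - φ i z) * T) P :=
        ((integrable_const _).sub hφi).mul_const _
      rw [e2, ← integral_add hi hi2]
      refine integral_mono_of_nonneg (Eventually.of_forall fun z => ?_)
        (hi.add hi2) (Eventually.of_forall fun z => ?_)
      · exact le_min (by positivity) hT
      · have h1 := (d.w01 i z).1
        have h2 := (d.w01 i z).2
        have h3 := min_le_left (‖QF fun j => X n j 0 z‖ ^ 2) T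
        have h4 := min_le_right (‖QF fun j => X n j 0 z‖ ^ 2) T
        have h5 : (QF fun j => X n j 0 z) =
          ∑ j ∈ v.support, (v j : ℂ) * (X n j 0 z * X n (2 * l - j) 0 z) := hQF _
        simp only
        rw [← h5]
        nlinarith
    have hlim2 : Tendsto (fun n =>
        (∫ z, φ i z * ‖∑ j ∈ v.support, (v j : ℂ) * (X n j 0 z * X n (2 * l - j) 0 z)‖ ^ 2 ∂P) +
          T * (1 - ∫ z, φ i z ∂P)) atTop
        (𝓝 ((KV v l * ∫ z, φ i z ∂P) + T * (1 - ∫ z, φ i z ∂P))) :=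
      hq.add_const _
    have hfinal := le_of_tendsto_of_tendsto hlim hlim2 hb2
    refine hfinal.trans ?_
    have h5 : -(KV v l * (1 - ∫ z, φ i z ∂P)) ≤ |KV v l| * δ := by
      calc -(KV v l * (1 - ∫ z, φ i z ∂P))
          ≤ |KV v l| * (1 - ∫ z, φ i z ∂P) := by
            rw [← neg_mul]
            exact mul_le_mul_of_nonneg_right (neg_le_abs _) hr0
        _ ≤ |KV v l| * δ := mul_le_mul_of_nonneg_left hr (abs_nonneg _)
    have h6 : T * (1 - ∫ z, φ i z ∂P) ≤ T * δ := mul_le_mul_of_nonneg_left hr hT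
    have h7 : (|KV v l| + T) * δ ≤ ε := by
      rw [hδ, mul_div_assoc', div_le_iff₀ (by positivity)]
      nlinarith [abs_nonneg (KV v l)]
    nlinarith
  -- remove the truncation
  have hmeas : Measurable fun f : MW => ‖QV v l 1 f 0‖ ^ 2 := by
    unfold QV
    refine (Measurable.norm ?_).pow_const 2
    refine Finset.measurable_sum _ fun j _ => ?_
    exact ((meas_W j 0).mul (meas_W (2 * l - j) 0)).const_mul _
  have hlim := lintegral_tendsto_of_tendsto_of_monotone (μ := μ)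
    (f := fun (n : ℕ) (f : MW) => ENNReal.ofReal (min (‖QV v l 1 f 0‖ ^ 2) (n : ℝ)))
    (F := fun f : MW => ENNReal.ofReal (‖QV v l 1 f 0‖ ^ 2))
    (fun n => (hmeas.min measurable_const).ennreal_ofReal.aemeasurable)
    (Eventually.of_forall fun f => fun m n hmn =>
      ENNReal.ofReal_le_ofReal (min_le_min le_rfl (by exact_mod_cast hmn)))
    (Eventually.of_forall fun f => by
      refine tendsto_const_nhds.congr' ?_
      obtain ⟨N, hN⟩ := exists_nat_ge (‖QV v l 1 f 0‖ ^ 2)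
      filter_upwards [eventually_ge_atTop N] with n hn
      rw [min_eq_left (hN.trans (by exact_mod_cast hn))])
  refine le_of_tendsto' hlim fun n => ?_
  rw [← ofReal_integral_eq_lintegral_ofReal]
  · exact ENNReal.ofReal_le_ofReal (key n (Nat.cast_nonneg n))
  · refine Integrable.of_bound (hmeas.min measurable_const).aestronglyMeasurable (n : ℝ)
      (Eventually.of_forall fun f => ?_)
    rw [Real.norm_eq_abs, abs_of_nonneg (le_min (by positivity) (Nat.cast_nonneg n))]
    exact min_le_right _ _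
  · exact Eventually.of_forall fun f => le_min (by positivity) (Nat.cast_nonneg n)

end

end Pool.Agent.N738.BHABS
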