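import Mathlib

set_option autoImplicit false

/-! Project LB (helper347), part ARITH: choice of the parameters. -/

namespace Pool.Agent.N738.LBARITH

theorem exists_q (d : ℕ) (hd : 3 ≤ d) : ∃ q : ℕ, 1 ≤ q ∧ 2 ^ q < d ∧ d ≤ 2 ^ (q + 1) := by
  have h1 := Nat.le_pow_clog (b := 2) (by norm_num) d
  have h2 := Nat.pow_pred_clog_lt_self (b := 2) (by norm_num) (x := d) (by omega)
  obtain ⟨c, hc⟩ : ∃ c, c = Nat.clog 2 d := ⟨_, rfl⟩
  rw [← hc] at h1 h2
  have hc2 : 2 ≤ c := by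
    by_contra h
    push Not at h
    have h3 : 2 ^ c ≤ 2 ^ 1 := Nat.pow_le_pow_right (by norm_num) (by omega)
    omega
  refine ⟨c - 1, by omega, ?_, ?_⟩
  · rwa [Nat.pred_eq_sub_one] at h2
  · rwa [Nat.sub_add_cancel (by omega)]

/-- **ARITH.** -/
theorem arith (c : Bool) (d m n : ℕ) (hd : d ^ 25 ≤ 2 ^ m) (hmd : m ≤ d + 1) (hd2 : 3 ≤ d)
    (hn : 2 * n = d * m + if c then m - 1 else 0) :
    ∃ q κ t L : ℕ, 1 ≤ q ∧ 3 ≤ κ ∧
      (∀ s < t * q, (d - s * 3) / 3 + 3 + κ ≤ d - s * 3 + 3) ∧ κ ≤ (3 + 1) * 2 ^ (q - 1) ∧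
      n ≤ t * (m ^ 2 / 2) ∧ q * 3 ≤ m ∧ 2 * n ≤ L * κ ∧ L + 4 ≤ 2 * m := by
  obtain ⟨q, hq1, hqd, hdq⟩ := exists_q d hd2
  have hqm : 25 * q < m := by
    have h1 : 2 ^ (25 * q) < 2 ^ m := by
      calc 2 ^ (25 * q) = (2 ^ q) ^ 25 := by rw [← pow_mul, mul_comm]
        _ < d ^ 25 := Nat.pow_lt_pow_left hqd (by norm_num)
        _ ≤ 2 ^ m := hd
    exact (Nat.pow_lt_pow_iff_right (by norm_num)).1 h1
  have hq7 : 7 ≤ q := by
    by_contra h
    push Not at h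
    interval_cases q <;> norm_num at hdq <;> omega
  have hm176 : 176 ≤ m := by omega
  have hd175 : 175 ≤ d := by omega
  -- bounds for `n`
  have hn1 : d * m ≤ 2 * n := by
    rw [hn]
    exact Nat.le_add_right _ _
  have hn2 : 2 * n + 1 ≤ (d + 1) * m := by
    rw [hn, add_mul, one_mul]
    split_ifs <;> omega
  have hdm : 175 * m ≤ d * m := Nat.mul_le_mul_right _ hd175
  -- kappa
  obtain ⟨M, hM⟩ : ∃ M, M = 2 * m - 4 := ⟨_, rfl⟩
  have hM0 : 0 < M := by omega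
  obtain ⟨κ, hκ⟩ : ∃ κ, κ = (2 * n + M - 1) / M := ⟨_, rfl⟩
  have hκ1 : M * κ ≤ 2 * n + M - 1 := by
    rw [hκ]
    exact Nat.mul_div_le _ _
  have hκ2 : 2 * n + M - 1 < M * κ + M := by
    rw [hκ]
    have := Nat.lt_mul_div_succ (2 * n + M - 1) hM0
    rwa [mul_add, mul_one] at this
  have hκ3 : 3 ≤ κ := by
    rw [hκ, Nat.le_div_iff_mul_le hM0]
    omega
  have hκ4 : 348 * (κ - 1) ≤ 176 * (d + 1) := by
    have h1 : M * (κ - 1) ≤ (d + 1) * m := by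
      rw [Nat.mul_sub, mul_one]
      omega
    have h2 : 348 * m ≤ 176 * M := by omega
    have h3 : M * (348 * (κ - 1)) ≤ M * (176 * (d + 1)) := by
      calc M * (348 * (κ - 1)) = 348 * (M * (κ - 1)) := by ring
        _ ≤ 348 * ((d + 1) * m) := Nat.mul_le_mul_left _ h1
        _ = (d + 1) * (348 * m) := by ring
        _ ≤ (d + 1) * (176 * M) := Nat.mul_le_mul_left _ h2
        _ = M * (176 * (d + 1)) := by ring
    exact Nat.le_of_mul_le_mul_left h3 hM0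
  have hκd : κ ≤ d := by omega
  -- t
  obtain ⟨P, hP⟩ : ∃ P, P = m ^ 2 / 2 := ⟨_, rfl⟩
  have hP1 : m ^ 2 ≤ 2 * P + 1 := by omega
  have hmm : 176 * m ≤ m ^ 2 := by
    rw [sq]
    exact Nat.mul_le_mul_right _ hm176
  have hP0 : 0 < P := by omega
  obtain ⟨t, ht⟩ : ∃ t, t = (n + P - 1) / P := ⟨_, rfl⟩
  have ht1 : P * t ≤ n + P - 1 := by
    rw [ht]
    exact Nat.mul_div_le _ _
  have ht2 : n + P - 1 < P * t + P := by
    rw [ht]
    have := Nat.lt_mul_div_succ (n + P - 1) hP0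
    rwa [mul_add, mul_one] at this
  have ht3 : (t - 1) * (m - 1) ≤ d + 1 := by
    have h1 : 2 * (P * (t - 1)) ≤ (d + 1) * m := by
      rw [Nat.mul_sub, mul_one]
      omega
    have h2 : (m - 1) * (m + 1) ≤ 2 * P := by
      have h3 : (m - 1) * (m + 1) + 1 = m ^ 2 := by
        obtain ⟨k, rfl⟩ : ∃ k, m = k + 1 := ⟨m - 1, by omega⟩
        rw [Nat.add_sub_cancel]
        ring
      omega
    have h4 : (t - 1) * (m - 1) * (m + 1) ≤ (d + 1) * (m + 1) := by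
      calc (t - 1) * (m - 1) * (m + 1) = (t - 1) * ((m - 1) * (m + 1)) := by ring
        _ ≤ (t - 1) * (2 * P) := Nat.mul_le_mul_left _ h2
        _ = 2 * (P * (t - 1)) := by ring
        _ ≤ (d + 1) * m := h1
        _ ≤ (d + 1) * (m + 1) := Nat.mul_le_mul_left _ (by omega)
    exact Nat.le_of_mul_le_mul_right h4 (by omega)
  have ht4 : 25 * (t * q) ≤ 2 * d + 1 := by
    rcases Nat.eq_zero_or_pos t with h0 | h0
    · subst h0
      omega
    · have h1 : (t - 1) * (25 * q) ≤ (t - 1) * (m - 1) := Nat.mul_le_mul_left _ (by omega)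
      have h2 : 25 * (t * q) = (t - 1) * (25 * q) + 25 * q := by
        obtain ⟨k, rfl⟩ : ∃ k, t = k + 1 := ⟨t - 1, by omega⟩
        rw [Nat.add_sub_cancel]
        ring
      omega
  refine ⟨q, κ, t, M, hq1, hκ3, ?_, ?_, ?_, by omega, ?_, by omega⟩
  · intro s hs
    omega
  · have h1 : (3 + 1) * 2 ^ (q - 1) = 2 ^ (q + 1) := by
      obtain ⟨k, rfl⟩ : ∃ k, q = k + 1 := ⟨q - 1, by omega⟩
      rw [Nat.add_sub_cancel]
      ring
    omega
  · rw [← hP, mul_comm]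
    omega
  · omega

end Pool.Agent.N738.LBARITH
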