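import Pool.Agent.Y522.Tools

/-!
# Compression inside a flow box (project SH, statement `StCompress`)
-/

set_option autoImplicit false

open Set Filter Topology Metric Function
open scoped Manifold ContDiff

noncomputable section

namespace Pool.Agent.N738.SH

open Pool.Agent.Y522

/-- inverse function theorem with an injective derivative -/
theorem LD_of_injective {n : ℕ} {f : E n → E n} {x : E n}
    (hf : ∀ᶠ y in 𝓝 x, ContDiffAt ℝ ∞ f y) (L : E n →L[ℝ] E n) (hL : HasFDerivAt f L x)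
    (hi : ∀ v, L v = 0 → v = 0) : LD n f x := by
  have hinj : Injective (L : E n →ₗ[ℝ] E n) := by
    rw [← LinearMap.ker_eq_bot, LinearMap.ker_eq_bot']
    exact hi
  let A : E n ≃L[ℝ] E n := (LinearEquiv.ofInjectiveEndo (L : E n →ₗ[ℝ] E n) hinj).toContinuousLinearEquiv
  have hA : (A : E n →L[ℝ] E n) = L := by
    ext v
    rfl
  refine LD_of_contDiffAt hf A ?_
  rw [hA]
  exact hL

/-- the profile in the radial direction (a function of the square of the norm) -/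
def bet (a1 a2 : ℝ) (u : ℝ) : ℝ := Real.smoothTransition ((a2 ^ 2 - u) / (a2 ^ 2 - a1 ^ 2))

/-- the profile in the direction of the flow -/
def chi (η : ℝ) (s : ℝ) : ℝ := Real.smoothTransition (1 - (2 * s / η) ^ 2)

theorem bet_contDiff (a1 a2 : ℝ) : ContDiff ℝ ∞ (bet a1 a2) := by
  unfold bet
  exact Real.smoothTransition.contDiff.comp (by fun_prop)

theorem chi_contDiff (η : ℝ) : ContDiff ℝ ∞ (chi η) := by
  unfold chi
  exact Real.smoothTransition.contDiff.comp (by fun_prop)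

theorem bet_nonneg (a1 a2 u : ℝ) : 0 ≤ bet a1 a2 u := Real.smoothTransition.nonneg _

theorem bet_le_one (a1 a2 u : ℝ) : bet a1 a2 u ≤ 1 := Real.smoothTransition.le_one _

theorem chi_nonneg (η s : ℝ) : 0 ≤ chi η s := Real.smoothTransition.nonneg _

theorem chi_le_one (η s : ℝ) : chi η s ≤ 1 := Real.smoothTransition.le_one _

theorem chi_zero (η : ℝ) : chi η 0 = 1 := by
  unfold chi
  simp

theorem chi_of_le {η s : ℝ} (hη : 0 < η) (hs : η / 2 ≤ |s|) : chi η s = 0 := by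
  unfold chi
  apply Real.smoothTransition.zero_of_nonpos
  have h1 : 1 ≤ |2 * s / η| := by
    rw [abs_div, abs_mul, abs_of_pos hη, abs_two, le_div_iff₀ hη]
    linarith
  have h2 : 1 ≤ (2 * s / η) ^ 2 := by
    rw [← sq_abs]
    nlinarith
  linarith

theorem bet_antitone {a1 a2 : ℝ} (h1 : 0 ≤ a1) (h2 : a1 < a2) : Antitone (bet a1 a2) := by
  intro u v huv
  unfold bet
  apply Real.smoothTransition.monotone
  have h3 : 0 < a2 ^ 2 - a1 ^ 2 := by nlinarith
  gcongr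

theorem bet_of_le {a1 a2 u : ℝ} (h1 : 0 ≤ a1) (h2 : a1 < a2) (hu : u ≤ a1 ^ 2) :
    bet a1 a2 u = 1 := by
  unfold bet
  apply Real.smoothTransition.one_of_one_le
  have h3 : 0 < a2 ^ 2 - a1 ^ 2 := by nlinarith
  rw [le_div_iff₀ h3]
  linarith

theorem bet_of_ge {a1 a2 u : ℝ} (h1 : 0 ≤ a1) (h2 : a1 < a2) (hu : a2 ^ 2 ≤ u) :
    bet a1 a2 u = 0 := by
  unfold bet
  apply Real.smoothTransition.zero_of_nonpos
  have h3 : 0 < a2 ^ 2 - a1 ^ 2 := by nlinarith
  apply div_nonpos_of_nonpos_of_nonneg _ h3.le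
  linarith

/-- the compression factor -/
def bb (c a1 a2 η : ℝ) {m : ℕ} (z : E (m + 1)) : ℝ :=
  1 - c * chi η (z 0) * bet a1 a2 (‖tl z‖ ^ 2)

/-- the compression of the model box -/
def lam (c a1 a2 η : ℝ) {m : ℕ} (z : E (m + 1)) : E (m + 1) :=
  cn (z 0) (bb c a1 a2 η z • tl z)

section lam

variable {c a1 a2 η : ℝ} {m : ℕ}

theorem lam_head (z : E (m + 1)) : (lam c a1 a2 η z) 0 = z 0 := by simp [lam]

theorem lam_tl (z : E (m + 1)) : tl (lam c a1 a2 η z) = bb c a1 a2 η z • tl z := by simp [lam]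

theorem bb_le_one (hc : 0 ≤ c) (z : E (m + 1)) : bb c a1 a2 η z ≤ 1 := by
  unfold bb
  have := mul_nonneg (mul_nonneg hc (chi_nonneg η (z 0))) (bet_nonneg a1 a2 (‖tl z‖ ^ 2))
  linarith

theorem bb_pos (hc : 0 ≤ c) (hc1 : c < 1) (z : E (m + 1)) : 0 < bb c a1 a2 η z := by
  unfold bb
  have h1 : c * chi η (z 0) ≤ c := mul_le_of_le_one_right hc (chi_le_one _ _)
  have h2 : c * chi η (z 0) * bet a1 a2 (‖tl z‖ ^ 2) ≤ c * chi η (z 0) :=
    mul_le_of_le_one_right (mul_nonneg hc (chi_nonneg _ _)) (bet_le_one _ _ _)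
  linarith

/-- the radial function -/
def hh (d a1 a2 t : ℝ) : ℝ := t * (1 - d * bet a1 a2 (t ^ 2))

theorem hh_strict {d : ℝ} (hd : 0 ≤ d) (hd1 : d < 1) (h1 : 0 ≤ a1) (h2 : a1 < a2) {s t : ℝ}
    (hs : 0 ≤ s) (hst : s < t) : hh d a1 a2 s < hh d a1 a2 t := by
  unfold hh
  have h3 : bet a1 a2 (t ^ 2) ≤ bet a1 a2 (s ^ 2) := bet_antitone h1 h2 (by nlinarith)
  have h4 : d * bet a1 a2 (t ^ 2) ≤ d := mul_le_of_le_one_right hd (bet_le_one _ _ _)
  have h5 : d * bet a1 a2 (t ^ 2) ≤ d * bet a1 a2 (s ^ 2) := mul_le_mul_of_nonneg_left h3 hd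
  nlinarith

theorem hh_continuous (d a1 a2 : ℝ) : Continuous (hh d a1 a2) := by
  unfold hh
  have := (bet_contDiff a1 a2).continuous
  fun_prop

theorem hh_of_ge {d : ℝ} (h1 : 0 ≤ a1) (h2 : a1 < a2) {t : ℝ} (ht : a2 ≤ t) :
    hh d a1 a2 t = t := by
  unfold hh
  rw [bet_of_ge h1 h2 (by nlinarith)]
  ring

theorem norm_tl_lam (hc : 0 ≤ c) (hc1 : c < 1) (z : E (m + 1)) :
    ‖tl (lam c a1 a2 η z)‖ = hh (c * chi η (z 0)) a1 a2 ‖tl z‖ := by
  rw [lam_tl, norm_smul, Real.norm_eq_abs, abs_of_pos (bb_pos hc hc1 z)]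
  unfold bb hh
  ring

theorem lam_injective (hc : 0 ≤ c) (hc1 : c < 1) (h1 : 0 ≤ a1) (h2 : a1 < a2) :
    Injective (lam c a1 a2 η : E (m + 1) → E (m + 1)) := by
  intro z w hzw
  have h0 : z 0 = w 0 := by
    rw [← lam_head (c := c) (a1 := a1) (a2 := a2) (η := η) z, hzw, lam_head]
  have hd : 0 ≤ c * chi η (z 0) := mul_nonneg hc (chi_nonneg _ _)
  have hd1 : c * chi η (z 0) < 1 :=
    (mul_le_of_le_one_right hc (chi_le_one _ _)).trans_lt hc1
  have h3 : hh (c * chi η (z 0)) a1 a2 ‖tl z‖ = hh (c * chi η (z 0)) a1 a2 ‖tl w‖ := by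
    rw [← norm_tl_lam hc hc1 z, hzw, norm_tl_lam hc hc1 w, h0]
  have h4 : ‖tl z‖ = ‖tl w‖ := by
    rcases lt_trichotomy ‖tl z‖ ‖tl w‖ with h | h | h
    · exact absurd h3 (hh_strict hd hd1 h1 h2 (norm_nonneg _) h).ne
    · exact h
    · exact absurd h3 (hh_strict hd hd1 h1 h2 (norm_nonneg _) h).ne'
  have h5 : bb c a1 a2 η z = bb c a1 a2 η w := by
    unfold bb
    rw [h0, h4]
  have h6 : bb c a1 a2 η z • tl z = bb c a1 a2 η z • tl w := by
    have := congrArg tl hzw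
    rwa [lam_tl, lam_tl, ← h5] at this
  have h7 : tl z = tl w := smul_right_injective _ (bb_pos hc hc1 z).ne' h6
  rw [← cn_tl z, ← cn_tl w, h0, h7]

theorem lam_surjective (hc : 0 ≤ c) (hc1 : c < 1) (h1 : 0 ≤ a1) (h2 : a1 < a2) :
    Surjective (lam c a1 a2 η : E (m + 1) → E (m + 1)) := by
  intro w
  set d : ℝ := c * chi η (w 0) with hd0
  have hd : 0 ≤ d := mul_nonneg hc (chi_nonneg _ _)
  have hd1 : d < 1 := (mul_le_of_le_one_right hc (chi_le_one _ _)).trans_lt hc1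
  by_cases hw : tl w = 0
  · refine ⟨w, ?_⟩
    unfold lam
    conv_rhs => rw [← cn_tl w]
    rw [hw, smul_zero]
  · have hwn : 0 < ‖tl w‖ := norm_pos_iff.2 hw
    obtain ⟨t, ht, htw⟩ : ∃ t ∈ Icc (0 : ℝ) (max a2 ‖tl w‖), hh d a1 a2 t = ‖tl w‖ := by
      have h3 := intermediate_value_Icc (α := ℝ) (δ := ℝ) (a := 0) (b := max a2 ‖tl w‖)
        (le_max_of_le_right (norm_nonneg _)) (f := hh d a1 a2) (hh_continuous d a1 a2).continuousOn
      apply h3
      refine ⟨?_, ?_⟩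
      · simp [hh]
      · rw [hh_of_ge h1 h2 (le_max_left _ _)]
        exact le_max_right _ _
    have ht0 : 0 ≤ t := ht.1
    refine ⟨cn (w 0) ((t / ‖tl w‖) • tl w), ?_⟩
    have hn : ‖(t / ‖tl w‖) • tl w‖ = t := by
      rw [norm_smul, Real.norm_eq_abs, abs_of_nonneg (by positivity)]
      field_simp
    unfold lam bb
    simp only [cn_zero, tl_cn, hn]
    conv_rhs => rw [← cn_tl w]
    congr 1
    rw [smul_smul, ← hd0]
    have h4 : (1 - d * bet a1 a2 (t ^ 2)) * (t / ‖tl w‖) = 1 := by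
      have : t * (1 - d * bet a1 a2 (t ^ 2)) = ‖tl w‖ := htw
      field_simp
      linarith
    rw [h4, one_smul]

theorem contDiff_head : ContDiff ℝ ∞ (fun z : E (m + 1) => z 0) := by fun_prop

theorem bb_contDiff : ContDiff ℝ ∞ (bb c a1 a2 η : E (m + 1) → ℝ) := by
  unfold bb
  have h1 : ContDiff ℝ ∞ (fun z : E (m + 1) => chi η (z 0)) :=
    (chi_contDiff η).comp contDiff_head
  have h2 : ContDiff ℝ ∞ (fun z : E (m + 1) => bet a1 a2 (‖tl z‖ ^ 2)) :=
    (bet_contDiff a1 a2).comp (tl.contDiff.norm_sq ℝ)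
  exact contDiff_const.sub ((contDiff_const.mul h1).mul h2)

theorem lam_eq : (lam c a1 a2 η : E (m + 1) → E (m + 1)) =
    fun z => (z 0) • e0 + inc (bb c a1 a2 η z • tl z) := by
  funext z
  unfold lam
  rw [cn_eq, inc_apply]

theorem lam_contDiff : ContDiff ℝ ∞ (lam c a1 a2 η : E (m + 1) → E (m + 1)) := by
  rw [lam_eq]
  exact (contDiff_head.smul contDiff_const).add
    (inc.contDiff.comp (bb_contDiff.smul tl.contDiff))

theorem lam_LD (hc : 0 ≤ c) (hc1 : c < 1) (h1 : 0 ≤ a1) (h2 : a1 < a2) (z : E (m + 1)) :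
    LD (m + 1) (lam c a1 a2 η : E (m + 1) → E (m + 1)) z := by
  -- derivative of the factor
  have hhead : HasFDerivAt (fun z : E (m + 1) => z 0)
      (EuclideanSpace.proj (0 : Fin (m + 1)) : E (m + 1) →L[ℝ] ℝ) z :=
    (EuclideanSpace.proj (0 : Fin (m + 1)) : E (m + 1) →L[ℝ] ℝ).hasFDerivAt
  have hchi : HasFDerivAt (fun z : E (m + 1) => chi η (z 0))
      (deriv (chi η) (z 0) • (EuclideanSpace.proj (0 : Fin (m + 1)) : E (m + 1) →L[ℝ] ℝ)) z := by
    have h3 : HasDerivAt (chi η) (deriv (chi η) (z 0)) (z 0) :=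
      ((chi_contDiff η).differentiable (by simp) (z 0)).hasDerivAt
    exact HasDerivAt.comp_hasFDerivAt (h₂ := chi η) (f := fun z : E (m + 1) => z 0) z h3 hhead
  have hbet : HasFDerivAt (fun z : E (m + 1) => bet a1 a2 (‖tl z‖ ^ 2))
      (deriv (bet a1 a2) (‖tl z‖ ^ 2) • (2 • (innerSL ℝ (tl z)).comp tl)) z := by
    have h3 : HasDerivAt (bet a1 a2) (deriv (bet a1 a2) (‖tl z‖ ^ 2)) (‖tl z‖ ^ 2) :=
      ((bet_contDiff a1 a2).differentiable (by simp) _).hasDerivAt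
    have h4 : HasFDerivAt (fun z : E (m + 1) => ‖tl z‖ ^ 2)
        (2 • (innerSL ℝ (tl z)).comp tl) z := tl.hasFDerivAt.norm_sq
    exact HasDerivAt.comp_hasFDerivAt (h₂ := bet a1 a2) (f := fun z : E (m + 1) => ‖tl z‖ ^ 2) z h3 h4
  have hb : HasFDerivAt (bb c a1 a2 η : E (m + 1) → ℝ) (fderiv ℝ (bb c a1 a2 η) z) z :=
    (bb_contDiff.differentiable (by simp) z).hasFDerivAt
  have hb' : HasFDerivAt (bb c a1 a2 η : E (m + 1) → ℝ)
      (-((c * chi η (z 0)) • (deriv (bet a1 a2) (‖tl z‖ ^ 2) • (2 • (innerSL ℝ (tl z)).comp tl)) +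
        (bet a1 a2 (‖tl z‖ ^ 2)) •
          (c • (deriv (chi η) (z 0) • (EuclideanSpace.proj (0 : Fin (m + 1)) : E (m + 1) →L[ℝ] ℝ))))) z := by
    have h5 := ((hchi.const_mul c).mul hbet).const_sub 1
    exact h5
  have hbe := hb.unique hb'
  have hl : HasFDerivAt (lam c a1 a2 η : E (m + 1) → E (m + 1))
      ((EuclideanSpace.proj (0 : Fin (m + 1)) : E (m + 1) →L[ℝ] ℝ).smulRight e0 +
        inc.comp (bb c a1 a2 η z • (tl : E (m + 1) →L[ℝ] E m) +
          (fderiv ℝ (bb c a1 a2 η) z).smulRight (tl z))) z := by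
    rw [lam_eq]
    have h6 := (hb.smul tl.hasFDerivAt)
    exact (hhead.smul_const e0).add (inc.hasFDerivAt.comp z h6)
  refine LD_of_injective (Eventually.of_forall fun y => lam_contDiff.contDiffAt) _ hl ?_
  intro v hv
  have hv' : (v 0) • (e0 : E (m + 1)) + inc (bb c a1 a2 η z • tl v +
      (fderiv ℝ (bb c a1 a2 η) z v) • tl z) = 0 := hv
  rw [inc_apply, ← cn_eq] at hv'
  have hv0 : v 0 = 0 := by
    have := congrArg (fun w : E (m + 1) => w 0) hv'
    simpa using this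
  have hvt : bb c a1 a2 η z • tl v + (fderiv ℝ (bb c a1 a2 η) z v) • tl z = 0 := by
    have := congrArg tl hv'
    simpa using this
  have hD : fderiv ℝ (bb c a1 a2 η) z v =
      (-(2 * (c * chi η (z 0)) * deriv (bet a1 a2) (‖tl z‖ ^ 2))) * inner ℝ (tl z) (tl v) := by
    rw [hbe]
    have : (EuclideanSpace.proj (0 : Fin (m + 1)) : E (m + 1) →L[ℝ] ℝ) v = 0 := hv0
    simp only [neg_apply, add_apply,
      smul_apply, ContinuousLinearMap.comp_apply, innerSL_apply_apply, this,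
      smul_eq_mul, nsmul_eq_mul]
    push_cast
    ring
  have hk : 0 ≤ -(2 * (c * chi η (z 0)) * deriv (bet a1 a2) (‖tl z‖ ^ 2)) := by
    have h7 : deriv (bet a1 a2) (‖tl z‖ ^ 2) ≤ 0 := (bet_antitone h1 h2).deriv_nonpos
    have h8 : 0 ≤ c * chi η (z 0) := mul_nonneg hc (chi_nonneg _ _)
    nlinarith
  generalize -(2 * (c * chi η (z 0)) * deriv (bet a1 a2) (‖tl z‖ ^ 2)) = k at hD hk
  have h9 : inner ℝ (tl v) (bb c a1 a2 η z • tl v + (fderiv ℝ (bb c a1 a2 η) z v) • tl z) =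
      bb c a1 a2 η z * ‖tl v‖ ^ 2 + k * (inner ℝ (tl z) (tl v)) ^ 2 := by
    rw [inner_add_right, inner_smul_right, inner_smul_right, real_inner_self_eq_norm_sq, hD,
      real_inner_comm (tl z) (tl v)]
    ring
  rw [hvt, inner_zero_right] at h9
  have h10 : ‖tl v‖ ^ 2 ≤ 0 := by
    have := bb_pos (a1 := a1) (a2 := a2) (η := η) hc hc1 z
    by_contra hcon
    push Not at hcon
    have h11 := mul_pos this hcon
    have h12 := mul_nonneg hk (sq_nonneg (inner ℝ (tl z) (tl v)))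
    linarith
  have h13 : tl v = 0 := by
    have := sq_nonneg ‖tl v‖
    have h14 : ‖tl v‖ ^ 2 = 0 := le_antisymm h10 this
    simpa using h14
  rw [← cn_tl v, hv0, h13]
  ext i
  refine Fin.cases ?_ (fun i => ?_) i <;> simp

theorem norm_tl_lam_le (hc : 0 ≤ c) (hc1 : c < 1) (z : E (m + 1)) :
    ‖tl (lam c a1 a2 η z)‖ ≤ ‖tl z‖ := by
  rw [lam_tl, norm_smul, Real.norm_eq_abs, abs_of_pos (bb_pos hc hc1 z)]
  exact mul_le_of_le_one_left (norm_nonneg _) (bb_le_one hc z)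

theorem lam_of_ge_tl (h1 : 0 ≤ a1) (h2 : a1 < a2) (z : E (m + 1)) (hz : a2 ≤ ‖tl z‖) :
    lam c a1 a2 η z = z := by
  unfold lam bb
  rw [bet_of_ge h1 h2 (by nlinarith)]
  simp

theorem lam_of_ge_head (hη : 0 < η) (z : E (m + 1)) (hz : η / 2 ≤ |z 0|) :
    lam c a1 a2 η z = z := by
  unfold lam bb
  rw [chi_of_le hη hz]
  simp

theorem lam_mem_box {R : ℝ} (hc : 0 ≤ c) (hc1 : c < 1) {z : E (m + 1)} (hz : z ∈ box m R η) :
    lam c a1 a2 η z ∈ box m R η := by
  refine ⟨(norm_tl_lam_le hc hc1 z).trans hz.1, ?_⟩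
  rw [lam_head]
  exact hz.2

theorem mem_box_of_lam {R : ℝ} (h1 : 0 ≤ a1) (h2 : a1 < a2)
    (h3 : a2 < R) {z : E (m + 1)} (hz : lam c a1 a2 η z ∈ box m R η) : z ∈ box m R η := by
  refine ⟨?_, ?_⟩
  · by_contra hcon
    push Not at hcon
    have h4 := hz.1
    rw [lam_of_ge_tl h1 h2 z (by linarith)] at h4
    linarith
  · have h4 := hz.2
    rwa [lam_head] at h4

end lam

/-- **Compression inside a flow box.** -/
theorem compress : StCompress := by
  intro m X _ _ _ _ F R η hR hη hFi hFd R' hR' τ hτ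
  -- parameters
  set R1 : ℝ := max R' 0 with hR1
  have hR1R : R1 < R := max_lt hR' hR
  have hR10 : 0 ≤ R1 := le_max_right _ _
  set a1 : ℝ := (2 * R1 + R) / 3 with ha1
  set a2 : ℝ := (R1 + 2 * R) / 3 with ha2
  have h1 : 0 ≤ a1 := by rw [ha1]; positivity
  have h1' : R1 < a1 := by rw [ha1]; linarith
  have h2 : a1 < a2 := by rw [ha1, ha2]; linarith
  have h3 : a2 < R := by rw [ha2]; linarith
  have h20 : 0 < a2 := lt_of_le_of_lt h1 h2
  obtain ⟨ε, hε, hε1, hετ⟩ : ∃ ε : ℝ, 0 < ε ∧ ε < 1 ∧ ε * R1 < τ := by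
    refine ⟨min (1 / 2) (τ / (2 * (R1 + 1))), by positivity, ?_, ?_⟩
    · exact (min_le_left _ _).trans_lt (by norm_num)
    · have h5 : min (1 / 2) (τ / (2 * (R1 + 1))) * R1 ≤ τ / (2 * (R1 + 1)) * R1 :=
        mul_le_mul_of_nonneg_right (min_le_right _ _) hR10
      have h6 : τ / (2 * (R1 + 1)) * R1 < τ := by
        rw [div_mul_eq_mul_div, div_lt_iff₀ (by positivity)]
        nlinarith
      linarith
  set c : ℝ := 1 - ε with hc0
  have hc : 0 ≤ c := by rw [hc0]; linarith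
  have hc1 : c < 1 := by rw [hc0]; linarith
  set l : E (m + 1) → E (m + 1) := lam c a1 a2 η with hl
  have hli : Injective l := lam_injective hc hc1 h1 h2
  have hls : Surjective l := lam_surjective hc hc1 h1 h2
  have hlb : ∀ z, z ∈ box m R η → l z ∈ box m R η := fun z hz => lam_mem_box hc hc1 hz
  have hlb' : ∀ z, l z ∈ box m R η → z ∈ box m R η := fun z hz => mem_box_of_lam h1 h2 h3 hz
  -- the inverse of F on the box
  have : Nonempty (E (m + 1)) := ⟨0⟩
  obtain ⟨G, hG⟩ : ∃ G : X → E (m + 1), ∀ z ∈ box m R η, G (F z) = z :=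
    ⟨invFunOn F (box m R η), fun z hz => hFi.leftInvOn_invFunOn hz⟩
  obtain ⟨Λ, hΛ1, hΛ2⟩ : ∃ Λ : X → X, (∀ z ∈ box m R η, Λ (F z) = F (l z)) ∧
      ∀ x, x ∉ F '' (box m R η) → Λ x = x := by
    classical
    refine ⟨fun x => if x ∈ F '' (box m R η) then F (l (G x)) else x, ?_, ?_⟩
    · intro z hz
      have : F z ∈ F '' (box m R η) := ⟨z, hz, rfl⟩
      simp only [this, if_true, hG z hz]
    · intro x hx
      simp only [hx, if_false]
  have hFc : ContinuousOn F (box m R η) := fun z hz => (hFd z hz).continuousAt.continuousWithinAt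
  refine ⟨Λ, ⟨?_, ?_⟩, ?_, hΛ2, ?_, ?_⟩
  · -- injective
    intro x y hxy
    by_cases hx : x ∈ F '' (box m R η) <;> by_cases hy : y ∈ F '' (box m R η)
    · obtain ⟨z, hz, rfl⟩ := hx
      obtain ⟨w, hw, rfl⟩ := hy
      rw [hΛ1 z hz, hΛ1 w hw] at hxy
      rw [hli (hFi (hlb z hz) (hlb w hw) hxy)]
    · exfalso
      obtain ⟨z, hz, rfl⟩ := hx
      rw [hΛ1 z hz, hΛ2 y hy] at hxy
      exact hy ⟨l z, hlb z hz, hxy⟩
    · exfalso
      obtain ⟨w, hw, rfl⟩ := hy
      rw [hΛ1 w hw, hΛ2 x hx] at hxy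
      exact hx ⟨l w, hlb w hw, hxy.symm⟩
    · rwa [hΛ2 x hx, hΛ2 y hy] at hxy
  · -- surjective
    intro y
    by_cases hy : y ∈ F '' (box m R η)
    · obtain ⟨w, hw, rfl⟩ := hy
      obtain ⟨z, rfl⟩ := hls w
      exact ⟨F z, hΛ1 z (hlb' z hw)⟩
    · exact ⟨y, hΛ2 y hy⟩
  · -- local diffeomorphism
    intro x
    set K : Set (E (m + 1)) := box m a2 (η / 2) with hK
    have hKb : K ⊆ box m R η := by
      intro z hz
      refine ⟨hz.1.trans h3.le, hz.2.trans ?_⟩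
      linarith
    have hKcl : IsClosed (F '' K) :=
      ((isCompact_box a2 (η / 2)).image_of_continuousOn (hFc.mono hKb)).isClosed
    by_cases hx : x ∈ F '' K
    · obtain ⟨z, hz, rfl⟩ := hx
      set I : Set (E (m + 1)) := {z | ‖tl z‖ < R ∧ |z 0| < η} with hI
      have hIo : IsOpen I := by
        apply IsOpen.inter
        · exact isOpen_lt (tl.continuous.norm) continuous_const
        · exact isOpen_lt (continuous_head.abs) continuous_const
      have hIb : I ⊆ box m R η := fun w hw => ⟨hw.1.le, hw.2.le⟩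
      have hzI : z ∈ I := by
        refine ⟨hz.1.trans_lt h3, hz.2.trans_lt ?_⟩
        linarith
      have hzb : z ∈ box m R η := hIb hzI
      have hGd : LD (m + 1) G (F z) :=
        LD.inverse hIo (fun w hw => hFd w (hIb hw)) (fun w hw => hG w (hIb hw)) hzI
      have hcomp : LD (m + 1) (fun y => F (l (G y))) (F z) := by
        have h4 : LD (m + 1) (fun y => l (G y)) (F z) := by
          refine LD.comp_fun ?_ hGd
          exact lam_LD hc hc1 h1 h2 _
        refine LD.comp_fun (g := F) (f := fun y => l (G y)) ?_ h4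
        rw [hG z hzb]
        exact hFd _ (hlb z hzb)
      refine hcomp.congr ?_
      have hIm : F '' I ∈ 𝓝 (F z) := (isOpen_image_of_LD hIo fun w hw => hFd w (hIb hw)).mem_nhds
        ⟨z, hzI, rfl⟩
      filter_upwards [hIm] with y hy
      obtain ⟨w, hw, rfl⟩ := hy
      rw [hΛ1 w (hIb hw), hG w (hIb hw)]
    · refine (LD.id x).congr ?_
      filter_upwards [hKcl.isOpen_compl.mem_nhds hx] with y hy
      by_cases hyb : y ∈ F '' (box m R η)
      · obtain ⟨w, hw, rfl⟩ := hyb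
        rw [hΛ1 w hw]
        have hwK : w ∉ K := fun h => hy ⟨w, h, rfl⟩
        have h5 : l w = w := by
          by_cases h6 : a2 ≤ ‖tl w‖
          · exact lam_of_ge_tl h1 h2 w h6
          · have h7 : η / 2 ≤ |w 0| := by
              by_contra h8
              exact hwK ⟨(not_le.1 h6).le, (not_le.1 h8).le⟩
            exact lam_of_ge_head hη w h7
        rw [h5]
      · exact hΛ2 y hyb
  · intro z hz
    refine ⟨tl (l z), (norm_tl_lam_le hc hc1 z).trans hz.1, ?_⟩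
    rw [hΛ1 z hz]
    have h4 : cn (z 0) (tl (l z)) = l z := by
      rw [← lam_head (c := c) (a1 := a1) (a2 := a2) (η := η) z]
      exact cn_tl _
    rw [h4]
  · intro y hy
    have hyR1 : ‖y‖ ≤ R1 := hy.trans (le_max_left _ _)
    have hyb : cn 0 y ∈ box m R η := ⟨by simpa using hyR1.trans hR1R.le, by simpa using hη.le⟩
    refine ⟨ε • y, ?_, ?_⟩
    · rw [norm_smul, Real.norm_eq_abs, abs_of_pos hε]
      exact (mul_le_mul_of_nonneg_left hyR1 hε.le).trans_lt hετ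
    · rw [hΛ1 _ hyb]
      congr 1
      rw [hl]
      unfold lam bb
      simp only [cn_zero, tl_cn, chi_zero]
      rw [bet_of_le h1 h2 (by nlinarith [norm_nonneg y])]
      congr 1
      rw [hc0]
      congr 1
      ring

end Pool.Agent.N738.SH
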