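import Pool.Agent.N646.RO.Stm3

/-!
# Project RQ, part E2 (helper738)
-/

set_option autoImplicit false

namespace Pool.Agent.N738.RQE2

open Finset Filter Topology Pool.Agent.N646.RO

/-- number of extensions -/
theorem ext_count {I : Type} [Fintype I] [DecidableEq I] {k : ℕ} (π : Fin (k + 1) → I)
    (hπ : Function.Injective π) (A : Finset ℕ) (F : Fin (k + 1) → ℕ) :
    ((Fintype.piFinset (fun _ : I => A)).filter (fun H => (fun i => H (π i)) = F)).card ≤
      A.card ^ (Fintype.card I - (k + 1)) := by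
  classical
  set J : Finset I := univ \ univ.image π with hJ
  have hJc : J.card = Fintype.card I - (k + 1) := by
    rw [hJ, card_sdiff_of_subset (subset_univ _), card_image_of_injective _ hπ, card_univ,
      card_univ, Fintype.card_fin]
  have hcard : (Fintype.piFinset (fun _ : J => A)).card = A.card ^ Fintype.card J := by
    rw [Fintype.card_piFinset, prod_const, card_univ]
  rw [← hJc, ← Fintype.card_coe J, ← hcard]
  refine card_le_card_of_injOn (fun H => fun x : J => H x.1) ?_ ?_
  · intro H hH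
    rw [mem_coe, mem_filter, Fintype.mem_piFinset] at hH
    rw [mem_coe, Fintype.mem_piFinset]
    exact fun x => hH.1 x.1
  · intro H hH H' hH' h
    rw [mem_coe, mem_filter, Fintype.mem_piFinset] at hH hH'
    funext x
    by_cases hx : x ∈ univ.image π
    · obtain ⟨i, _, rfl⟩ := mem_image.mp hx
      exact (congrFun hH.2 i).trans (congrFun hH'.2 i).symm
    · exact congrFun h ⟨x, mem_sdiff.mpr ⟨mem_univ _, hx⟩⟩

open Classical in
theorem main (hW : S_WB) (k : ℕ) : S_E2 k := by
  intro T K M₀ δ lam hδ hlam hM₀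
  set m := T * K - (k + 1) with hm
  obtain ⟨C, hC, hev⟩ := hW δ lam M₀ (k + 1 + 2 * m) hδ hlam hM₀
  refine ⟨Real.sqrt C, Real.sqrt_pos.mpr hC, ?_⟩
  filter_upwards [hev, eventually_ge_atTop 18] with N hN hN18
  intro T₁ hT₁ hMT κ hκ hκ1 π hπ
  have hTK : k + 1 ≤ T * K := by
    have := Fintype.card_le_of_injective π hπ
    simpa using this
  have hmk : k + 1 + m = T * K := by omega
  have hlog : 0 < Real.log N := Real.log_pos (by exact_mod_cast (by omega : 1 < N))
  set A : ℕ → Finset ℕ := fun n => (range T₁).filter (fun t : ℕ => Rgh δ N (n + M₀ * t)) with hA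
  set Q : ℕ → Finset (Fin (k + 1) → ℕ) := fun n =>
    (Fintype.piFinset (fun _ : Fin (k + 1) => range T₁)).filter (fun F => ¬ Gd κ N M₀ F ∧
      (∀ i, (n + M₀ * F i).Prime) ∧ ∀ i, F i ∈ A n) with hQ
  set NN := Icc (N / 18) (2 * N) with hNN
  -- exchange of the sums
  have h1 : ∑ H ∈ (Fintype.piFinset (fun _ : Fin T × Fin K => range T₁)).filter
        (fun H => ¬ Gd κ N M₀ (fun i => H (π i))),
      ((NN.filter (fun n : ℕ => (∀ x, Rgh δ N (n + M₀ * H x)) ∧
        ∀ i, (n + M₀ * H (π i)).Prime)).card : ℝ) =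
      ∑ n ∈ NN, ((((Fintype.piFinset (fun _ : Fin T × Fin K => range T₁)).filter
        (fun H => ¬ Gd κ N M₀ (fun i => H (π i)))).filter (fun H => (∀ x, Rgh δ N (n + M₀ * H x)) ∧
        ∀ i, (n + M₀ * H (π i)).Prime)).card : ℝ) := by
    simp only [card_filter, Nat.cast_sum]
    rw [sum_comm]
  rw [h1]
  -- the bound for one n
  have h2 : ∀ n ∈ NN, ((((Fintype.piFinset (fun _ : Fin T × Fin K => range T₁)).filter
        (fun H => ¬ Gd κ N M₀ (fun i => H (π i)))).filter (fun H => (∀ x, Rgh δ N (n + M₀ * H x)) ∧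
        ∀ i, (n + M₀ * H (π i)).Prime)).card : ℝ) ≤
      Real.sqrt ((Q n).card : ℝ) * Real.sqrt (((Q n).card : ℝ) * ((A n).card : ℝ) ^ (2 * m)) := by
    intro n _
    have h3 : (((Fintype.piFinset (fun _ : Fin T × Fin K => range T₁)).filter
        (fun H => ¬ Gd κ N M₀ (fun i => H (π i)))).filter (fun H => (∀ x, Rgh δ N (n + M₀ * H x)) ∧
        ∀ i, (n + M₀ * H (π i)).Prime)).card ≤ (A n).card ^ m * (Q n).card := by
      refine (card_le_mul_card_image (f := fun H => fun i => H (π i)) _ ((A n).card ^ m)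
        ?_).trans (Nat.mul_le_mul_left _ (card_le_card ?_))
      · intro F _
        have h4 := ext_count π hπ (A n) F
        have h5 : Fintype.card (Fin T × Fin K) - (k + 1) = m := by simp [hm]
        rw [h5] at h4
        refine le_trans (card_le_card ?_) h4
        intro H hH
        simp only [mem_filter, Fintype.mem_piFinset] at hH ⊢
        refine ⟨fun x => ?_, hH.2⟩
        rw [hA]
        exact mem_filter.mpr ⟨hH.1.1.1 x, hH.1.2.1 x⟩
      · intro F hF
        obtain ⟨H, hH, rfl⟩ := mem_image.mp hF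
        simp only [mem_filter, Fintype.mem_piFinset] at hH
        rw [hQ]
        refine mem_filter.mpr ⟨Fintype.mem_piFinset.mpr fun i => hH.1.1 _, hH.1.2, hH.2.2,
          fun i => ?_⟩
        rw [hA]
        exact mem_filter.mpr ⟨hH.1.1 _, hH.2.1 _⟩
    have h6 : Real.sqrt ((Q n).card : ℝ) * Real.sqrt (((Q n).card : ℝ) * ((A n).card : ℝ) ^ (2 * m))
        = ((A n).card : ℝ) ^ m * (Q n).card := by
      rw [← Real.sqrt_mul (by positivity)]
      have : ((Q n).card : ℝ) * (((Q n).card : ℝ) * ((A n).card : ℝ) ^ (2 * m)) =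
          (((A n).card : ℝ) ^ m * (Q n).card) ^ 2 := by
        rw [mul_comm 2 m, pow_mul]; ring
      rw [this, Real.sqrt_sq (by positivity)]
    rw [h6]
    exact_mod_cast h3
  refine (sum_le_sum h2).trans ?_
  refine (Real.sum_sqrt_mul_sqrt_le _ (fun n => by positivity) (fun n => by positivity)).trans ?_
  -- the first factor
  have h7 : ∑ n ∈ NN, ((Q n).card : ℝ) ≤
      (T₁ : ℝ) ^ (k + 1) * (κ * (N / (Real.log N) ^ (k + 1))) := by
    have h8 : ∑ n ∈ NN, ((Q n).card : ℝ) ≤
        ∑ F ∈ (Fintype.piFinset (fun _ : Fin (k + 1) => range T₁)).filter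
          (fun F => ¬ Gd κ N M₀ F), ((piR N M₀ F : ℕ) : ℝ) := by
      have h9 : ∀ n ∈ NN, ((Q n).card : ℝ) ≤
          ((((Fintype.piFinset (fun _ : Fin (k + 1) => range T₁)).filter
          (fun F => ¬ Gd κ N M₀ F)).filter (fun F => ∀ i, (n + M₀ * F i).Prime)).card : ℝ) := by
        intro n _
        have : (Q n).card ≤ (((Fintype.piFinset (fun _ : Fin (k + 1) => range T₁)).filter
          (fun F => ¬ Gd κ N M₀ F)).filter (fun F => ∀ i, (n + M₀ * F i).Prime)).card := by
          refine card_le_card fun F hF => ?_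
          rw [hQ] at hF
          have hF' := mem_filter.mp hF
          exact mem_filter.mpr ⟨mem_filter.mpr ⟨hF'.1, hF'.2.1⟩, hF'.2.2.1⟩
        exact_mod_cast this
      refine (sum_le_sum h9).trans ?_
      simp only [card_filter, Nat.cast_sum]
      rw [sum_comm]
      refine sum_le_sum fun F _ => ?_
      rw [← Nat.cast_sum, ← card_filter]
      have : (NN.filter (fun n : ℕ => ∀ i, (n + M₀ * F i).Prime)).card ≤ piR N M₀ F := by
        unfold piR
        refine card_le_card fun n hn => ?_
        rw [mem_filter, hNN, mem_Icc] at hn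
        have h18 : 1 ≤ N / 18 := (Nat.one_le_div_iff (by norm_num)).mpr hN18
        exact mem_filter.mpr ⟨mem_Icc.mpr ⟨h18.trans hn.1.1, hn.1.2⟩, hn.2⟩
      exact_mod_cast this
    refine h8.trans ?_
    have h10 : ∀ F ∈ (Fintype.piFinset (fun _ : Fin (k + 1) => range T₁)).filter
          (fun F => ¬ Gd κ N M₀ F), ((piR N M₀ F : ℕ) : ℝ) ≤
          κ * (N / (Real.log N) ^ (k + 1)) := by
      intro F hF
      have := (mem_filter.mp hF).2
      unfold Gd at this
      exact (not_le.mp this).le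
    refine (sum_le_card_nsmul _ _ _ h10).trans ?_
    rw [nsmul_eq_mul]
    refine mul_le_mul_of_nonneg_right ?_ (by positivity)
    have h11 : ((Fintype.piFinset (fun _ : Fin (k + 1) => range T₁)).filter
          (fun F => ¬ Gd κ N M₀ F)).card ≤ T₁ ^ (k + 1) := by
      refine (card_filter_le _ _).trans ?_
      rw [Fintype.card_piFinset_const]
      simp
    exact_mod_cast h11
  -- the second factor
  have h12 : ∑ n ∈ NN, ((Q n).card : ℝ) * ((A n).card : ℝ) ^ (2 * m) ≤
      C * N * (T₁ / Real.log N) ^ (k + 1 + 2 * m) := by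
    refine (sum_le_sum fun n _ => ?_).trans (hN T₁ hT₁ hMT)
    have h13 : (Q n).card ≤ (A n).card ^ (k + 1) := by
      have h14 : (Q n).card ≤ (Fintype.piFinset (fun _ : Fin (k + 1) => A n)).card := by
        refine card_le_card fun F hF => ?_
        rw [hQ] at hF
        have hF' := mem_filter.mp hF
        exact Fintype.mem_piFinset.mpr hF'.2.2.2
      rw [Fintype.card_piFinset_const] at h14
      simpa using h14
    have h15 : ((Q n).card : ℝ) ≤ ((A n).card : ℝ) ^ (k + 1) := by exact_mod_cast h13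
    rw [pow_add _ (k + 1)]
    exact mul_le_mul_of_nonneg_right h15 (by positivity)
  refine (mul_le_mul (Real.sqrt_le_sqrt h7) (Real.sqrt_le_sqrt h12) (Real.sqrt_nonneg _)
    (Real.sqrt_nonneg _)).trans (le_of_eq ?_)
  rw [← Real.sqrt_mul (by positivity)]
  have h16 : (T₁ : ℝ) ^ (k + 1) * (κ * (N / (Real.log N) ^ (k + 1))) *
      (C * N * (T₁ / Real.log N) ^ (k + 1 + 2 * m)) =
      (C * κ) * (N * (T₁ / Real.log N) ^ (T * K)) ^ 2 := by
    rw [← hmk, mul_pow, ← pow_mul]
    have e : (k + 1 + m) * 2 = (k + 1) + (k + 1 + 2 * m) := by ring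
    rw [e, pow_add _ (k + 1) (k + 1 + 2 * m), div_pow _ _ (k + 1)]
    field_simp
  rw [h16, Real.sqrt_mul (by positivity), Real.sqrt_sq (by positivity), Real.sqrt_mul hC.le]
  ring

end Pool.Agent.N738.RQE2
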