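import Pool.Agent.N795.BV.Stm2
import Pool.Agent.N916.BVNRM
import Pool.Agent.V1148.Bor.I

/-!
# Normalisation for the mean distance (project BV)
-/

set_option autoImplicit false

open Polynomial

namespace Pool.Agent.N795.BV

namespace H738

open Pool.Agent.V1148.Bor H916

/-- If all critical points are equal then the polynomial is pure. -/
theorem pure_of_crit {m : ℕ} {F : ℂ[X]} (hF : F.natDegree = m + 1) {Z : Fin (m + 1) → ℂ}
    (hZ : F.roots = Finset.univ.val.map Z) {W : Fin m → ℂ} (hR : Rel Z W) {μ : ℂ}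
    (hW : ∀ i, W i = μ) : IsPure F := by
  have hF0 : F ≠ 0 := by
    rintro rfl
    simp at hF
  have hl : F.leadingCoeff ≠ 0 := leadingCoeff_ne_zero.2 hF0
  have e1 := prod_roots hZ
  unfold Rel at hR
  set G : ℂ[X] := ∏ k, (X - C (Z k)) with hG
  have e2 : derivative (G - (X - C μ) ^ (m + 1)) = 0 := by
    rw [derivative_sub, hR, derivative_pow]
    simp only [hW, Finset.prod_const, Finset.card_univ, Fintype.card_fin, derivative_sub,
      derivative_X, derivative_C, sub_zero, mul_one, Nat.add_sub_cancel, Nat.cast_add, Nat.cast_one]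
    rw [sub_self]
  obtain ⟨b, hb⟩ : ∃ b : ℂ, G - (X - C μ) ^ (m + 1) = C b :=
    ⟨_, eq_C_of_derivative_eq_zero e2⟩
  refine ⟨F.leadingCoeff, -(F.leadingCoeff * b), μ, hl, ?_⟩
  rw [hF]
  conv_lhs => rw [e1]
  have e3 : G = (X - C μ) ^ (m + 1) + C b := by rw [← hb]; ring
  rw [e3, C_neg, C_mul]
  ring

/-- If all zeros are equal then the polynomial is pure. -/
theorem pure_of_zeros {m : ℕ} {F : ℂ[X]} (hF : F.natDegree = m + 1) {Z : Fin (m + 1) → ℂ}
    (hZ : F.roots = Finset.univ.val.map Z) {c : ℂ} (hc : ∀ k, Z k = c) : IsPure F := by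
  have hF0 : F ≠ 0 := by
    rintro rfl
    simp at hF
  have hl : F.leadingCoeff ≠ 0 := leadingCoeff_ne_zero.2 hF0
  have e1 := prod_roots hZ
  refine ⟨F.leadingCoeff, 0, c, hl, ?_⟩
  rw [hF]
  conv_lhs => rw [e1]
  simp only [hc, Finset.prod_const, Finset.card_univ, Fintype.card_fin, C_0, sub_zero]

end H738

open Pool.Agent.V1148.Bor H916 H738 in
theorem nrm1 (_hG : S_GL) : S_NRM1 := by
  intro m hm F hF ε hε hcrit hle hpure
  have hn2 : 2 ≤ F.natDegree := by omega
  obtain ⟨Z, hZ, hmean⟩ := fin_of hF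
  obtain ⟨W, hR, hW⟩ := crit hF hZ
  obtain ⟨c0, hc0⟩ := exists_min (one_pos) (exists_root hn2)
  obtain ⟨z0, hz0, hh⟩ := hdist_attained (exists_root hn2)
  have hz0' := hz0
  rw [hZ, Multiset.mem_map] at hz0'
  obtain ⟨k0, -, rfl⟩ := hz0'
  have hF0 : F ≠ 0 := by
    rintro rfl
    simp at hF
  have hl : F.leadingCoeff ≠ 0 := leadingCoeff_ne_zero.2 hF0
  have hl0 : 0 < ‖F.leadingCoeff‖ := norm_pos_iff.2 hl
  have hstar : ∀ i, sigma 1 F ≤ ‖W i - Z k0‖ := by
    intro i
    rw [norm_sub_rev]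
    exact hle.trans (by rw [hh]; exact near_le (hW i))
  have hN : (0 : ℝ) < (m : ℝ) + 1 := by positivity
  have hNc : ((m : ℂ) + 1) ≠ 0 := by
    have : ((m : ℂ) + 1) = (((m : ℝ) + 1 : ℝ) : ℂ) := by push_cast; rfl
    rw [this]
    exact_mod_cast hN.ne'
  have hsum : F.roots.sum = ∑ k, Z k := by rw [hZ]; rfl
  rw [hsum] at hcrit
  set μ : ℂ := (∑ k, Z k) / ((m : ℂ) + 1) with hμ
  have hμ0 : ∑ k, (Z k - μ) = 0 := by
    rw [Finset.sum_sub_distrib, Finset.sum_const, Finset.card_univ, Fintype.card_fin, nsmul_eq_mul, hμ]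
    push_cast
    rw [mul_div_cancel₀ _ hNc]
    ring
  set P : ℝ := ∏ k, ‖Z k - μ‖ with hP
  have hP0 : 0 ≤ P := Finset.prod_nonneg fun k _ => norm_nonneg _
  have hev : ‖F.eval μ‖ = ‖F.leadingCoeff‖ * P := by
    have e1 := prod_roots hZ
    have e2 : F.eval μ = F.leadingCoeff * ∏ k, (μ - Z k) := by
      conv_lhs => rw [e1]
      rw [eval_mul, eval_C, eval_prod]
      simp
    rw [e2, norm_mul, norm_prod]
    congr 1
    exact Finset.prod_congr rfl fun k _ => norm_sub_rev _ _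
  have hkey : ∀ i, ‖W i - μ‖ ^ (m + 1) ≤ ε ^ (m + 1) * P := by
    intro i
    have h1 := hcrit _ (hW i)
    rw [hev] at h1
    have h2 : ‖F.leadingCoeff‖ * ‖W i - μ‖ ^ (m + 1) ≤ ‖F.leadingCoeff‖ * (ε ^ (m + 1) * P) := by
      calc ‖F.leadingCoeff‖ * ‖W i - μ‖ ^ (m + 1) = ‖W i - μ‖ ^ (m + 1) * ‖F.leadingCoeff‖ := by ring
        _ ≤ ε ^ (m + 1) * (‖F.leadingCoeff‖ * P) := h1
        _ = _ := by ring
    exact le_of_mul_le_mul_left h2 hl0
  have hnotall : ∃ i, W i ≠ μ := by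
    by_contra hcon
    push Not at hcon
    exact hpure (pure_of_crit hF hZ hR hcon)
  have hPpos : 0 < P := by
    rcases hP0.lt_or_eq with h | h
    · exact h
    · exfalso
      obtain ⟨i, hi⟩ := hnotall
      have h1 := hkey i
      rw [← h, mul_zero] at h1
      have h2 : 0 < ‖W i - μ‖ ^ (m + 1) := pow_pos (norm_pos_iff.2 (sub_ne_zero.2 hi)) _
      linarith
  set t : ℝ := P ^ (1 / ((m : ℝ) + 1)) with ht
  have htpos : 0 < t := Real.rpow_pos_of_pos hPpos _
  have htP : t ^ (m + 1) = P := by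
    rw [ht, ← Real.rpow_natCast, ← Real.rpow_mul hP0]
    push_cast
    rw [one_div_mul_cancel hN.ne', Real.rpow_one]
  have hWt : ∀ i, ‖W i - μ‖ ≤ ε * t := by
    intro i
    have h1 := hkey i
    rw [← htP, ← mul_pow] at h1
    exact (pow_le_pow_iff_left₀ (norm_nonneg _) (by positivity) (by omega)).1 h1
  have hσ : sigma 1 F = (1 / ((m : ℝ) + 1)) * ∑ j, ‖Z j - c0‖ := by
    rw [hc0, hmean]
    push_cast
    simp only [Real.rpow_one, div_one]
  have hσpos : 0 < sigma 1 F := by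
    have h0 : 0 ≤ sigma 1 F := by rw [hσ]; positivity
    rcases h0.lt_or_eq with h | h
    · exact h
    · exfalso
      rw [hσ] at h
      have h1 : ∑ j, ‖Z j - c0‖ = 0 := by
        rcases mul_eq_zero.1 h.symm with h2 | h2
        · exact absurd h2 (by positivity)
        · exact h2
      refine hpure (pure_of_zeros hF hZ (c := c0) ?_)
      intro k
      have h3 := (Finset.sum_eq_zero_iff_of_nonneg (fun k _ => norm_nonneg _)).1 h1 k (Finset.mem_univ k)
      exact sub_eq_zero.1 (norm_eq_zero.1 h3)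
  have htc : (t : ℂ) ≠ 0 := by exact_mod_cast htpos.ne'
  have hnorm : ∀ x : ℂ, ‖x / (t : ℂ)‖ = ‖x‖ / t := by
    intro x
    rw [norm_div, Complex.norm_real, Real.norm_of_nonneg htpos.le]
  have hdiff : ∀ x y : ℂ, (x - μ) / (t : ℂ) - (y - μ) / t = (x - y) / t := by
    intro x y
    rw [← sub_div]
    congr 1
    ring
  refine ⟨fun k => (Z k - μ) / t, fun i => (W i - μ) / t, (c0 - μ) / t, k0, sigma 1 F / t,
    rel_aff hR μ t htc, ?_, ?_, ?_, ?_, ?_, ?_, ?_⟩
  · rw [← Finset.sum_div, hμ0, zero_div]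
  · have h1 : ∀ k, ‖(Z k - μ) / (t : ℂ)‖ = ‖Z k - μ‖ / t := fun k => hnorm _
    simp only [h1]
    rw [Finset.prod_div_distrib, Finset.prod_const, Finset.card_univ, Fintype.card_fin, htP]
    exact div_self hPpos.ne'
  · intro i
    simp only
    rw [hnorm, div_le_iff₀ htpos]
    exact hWt i
  · positivity
  · have h1 : ∀ j, ‖(Z j - μ) / (t : ℂ) - (c0 - μ) / t‖ = ‖Z j - c0‖ / t := by
      intro j
      rw [hdiff, hnorm]
    simp only [h1]
    rw [← Finset.sum_div, hσ]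
    refine le_of_eq ?_
    field_simp
  · intro i
    simp only
    rw [hdiff, hnorm]
    exact div_le_div_of_nonneg_right (hstar i) htpos.le
  · obtain ⟨i, hi⟩ := hnotall
    exact ⟨i, div_ne_zero (sub_ne_zero.2 hi) htc⟩

end Pool.Agent.N795.BV
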