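import Pool.Agent.N795.ST.Stm

/-!
ST, task CLOSED: the closed form of `pw` from `Join`.
-/

set_option autoImplicit false

namespace Pool.Agent.N795.ST

open Finset Equiv

namespace N738cl

theorem sameCycle_of_inv {V : Type} [Fintype V] [DecidableEq V] (h h' : Perm V) (U : Finset V)
    (h1 : ∀ w ∈ U, h w ∈ U) (h2 : ∀ w ∈ U, h' w = h w) (x y : V) (hx : x ∈ U) :
    h.SameCycle x y ↔ h'.SameCycle x y := by
  have h3 : ∀ n : ℕ, (h ^ n) x ∈ U ∧ (h' ^ n) x = (h ^ n) x := by
    intro n
    induction n with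
    | zero => exact ⟨by simpa using hx, by simp⟩
    | succ n ih =>
      rw [pow_succ', pow_succ', Perm.mul_apply, Perm.mul_apply, ih.2]
      exact ⟨h1 _ ih.1, h2 _ ih.1⟩
  constructor
  · intro hs
    obtain ⟨n, _, hn⟩ := hs.exists_pow_eq'
    exact ⟨n, by rw [zpow_natCast, (h3 n).2, hn]⟩
  · intro hs
    obtain ⟨n, _, hn⟩ := hs.exists_pow_eq'
    exact ⟨n, by rw [zpow_natCast, ← (h3 n).2, hn]⟩

/-- the condition in `ntup` -/
def cond {V : Type} (r : ℕ) (g : Perm V) (U : Finset V) (z : Fin r → V) : Prop :=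
  (∀ i j, i ≠ j → ¬ g.SameCycle (z i) (z j)) ∧ (∀ w, w ∈ U ↔ ∃ i, g.SameCycle (z i) w)

theorem cond_swap {V : Type} [Fintype V] [DecidableEq V] (r : ℕ) (g : Perm V) (U : Finset V)
    (z : Fin r → V) (a b : V) (ha : a ∉ U) (hb : b ∉ U) (h : cond r g U z) :
    cond r (g * swap a b) U z := by
  obtain ⟨h1, h2⟩ := h
  have hinv : ∀ w ∈ U, g w ∈ U := by
    intro w hw
    obtain ⟨i, hi⟩ := (h2 w).1 hw
    exact (h2 _).2 ⟨i, Perm.sameCycle_apply_right.2 hi⟩
  have hag : ∀ w ∈ U, (g * swap a b) w = g w := by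
    intro w hw
    rw [Perm.mul_apply, swap_apply_of_ne_of_ne]
    · rintro rfl
      exact ha hw
    · rintro rfl
      exact hb hw
  have hz : ∀ i, z i ∈ U := fun i => (h2 _).2 ⟨i, Perm.SameCycle.refl g (z i)⟩
  constructor
  · intro i j hij hs
    exact h1 i j hij ((sameCycle_of_inv g _ U hinv hag _ _ (hz i)).2 hs)
  · intro w
    rw [h2 w]
    refine exists_congr fun i => ?_
    exact sameCycle_of_inv g _ U hinv hag _ _ (hz i)

theorem ntup_eq {V : Type} [Fintype V] [DecidableEq V] (r : ℕ) (g : Perm V) (U : Finset V) :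
    ntup r g U = ∑ z : Fin r → V, open Classical in if cond r g U z then (1 : ℝ) else 0 := by
  classical
  unfold ntup
  refine sum_congr rfl fun z _ => ?_
  by_cases h : cond r g U z
  · rw [if_pos h]
    exact if_pos h
  · rw [if_neg h]
    exact if_neg h

theorem ntup_swap {V : Type} [Fintype V] [DecidableEq V] (r : ℕ) (g : Perm V) (U : Finset V)
    (a b : V) (ha : a ∉ U) (hb : b ∉ U) : ntup r (g * swap a b) U = ntup r g U := by
  classical
  rw [ntup_eq, ntup_eq]
  refine sum_congr rfl fun z _ => ?_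
  have h1 : cond r (g * swap a b) U z ↔ cond r g U z := by
    constructor
    · intro h
      have h2 := cond_swap r _ U z a b ha hb h
      rwa [mul_assoc, swap_mul_self, mul_one] at h2
    · exact cond_swap r g U z a b ha hb
  exact if_congr h1 rfl rfl

theorem base {V : Type} [Fintype V] [DecidableEq V] (g : Perm V) (U : Finset V) :
    (U.card : ℝ) * pw 0 g U = ntup 1 g U := by
  classical
  have h1 : ntup 1 g U = ∑ v : V, if (∀ w, w ∈ U ↔ g.SameCycle v w) then (1 : ℝ) else 0 := by
    rw [ntup_eq]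
    refine Fintype.sum_equiv (Equiv.funUnique (Fin 1) V) _ _ fun z => ?_
    have h2 : cond 1 g U z ↔ (∀ w, w ∈ U ↔ g.SameCycle ((Equiv.funUnique (Fin 1) V) z) w) := by
      unfold cond
      constructor
      · rintro ⟨_, h⟩ w
        rw [h w]
        constructor
        · rintro ⟨i, hi⟩
          have : i = default := Subsingleton.elim _ _
          rw [this] at hi
          exact hi
        · intro hi
          exact ⟨default, hi⟩
      · intro h
        refine ⟨fun i j hij => absurd (Subsingleton.elim i j) hij, fun w => ?_⟩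
        rw [h w]
        constructor
        · intro hi
          exact ⟨default, hi⟩
        · rintro ⟨i, hi⟩
          have : i = default := Subsingleton.elim _ _
          rw [this] at hi
          exact hi
    exact if_congr h2 rfl rfl
  rw [h1]
  show (U.card : ℝ) * (if cyU g U then (1 : ℝ) else 0) = _
  by_cases hc : cyU g U
  · rw [if_pos hc, mul_one]
    obtain ⟨v0, hv0, h0⟩ := hc
    have h2 : ∀ v : V, (∀ w, w ∈ U ↔ g.SameCycle v w) ↔ v ∈ U := by
      intro v
      constructor
      · intro h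
        exact (h v).2 (Perm.SameCycle.refl g v)
      · intro hv w
        rw [h0 w]
        have h3 := (h0 v).1 hv
        exact ⟨fun h => h3.symm.trans h, fun h => h3.trans h⟩
    simp_rw [h2]
    rw [Finset.sum_ite_mem, Finset.univ_inter, Finset.sum_const, nsmul_eq_mul, mul_one]
  · rw [if_neg hc, mul_zero]
    symm
    refine Finset.sum_eq_zero fun v _ => ?_
    rw [if_neg]
    intro h
    exact hc ⟨v, (h v).2 (Perm.SameCycle.refl g v), h⟩

theorem count_out {V : Type} [Fintype V] [DecidableEq V] (U : Finset V) (X : ℝ) :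
    (∑ a : V, ∑ b : V, if a ∉ U ∧ b ∉ U then X else 0) =
      ((Fintype.card V : ℝ) - U.card) ^ 2 * X := by
  have h1 : ∀ a b : V, (if a ∉ U ∧ b ∉ U then X else 0) =
      (if a ∉ U then (1 : ℝ) else 0) * (if b ∉ U then (1 : ℝ) else 0) * X := by
    intro a b
    by_cases ha : a ∉ U <;> by_cases hb : b ∉ U <;> simp [ha, hb]
  have h2 : (∑ a : V, if a ∉ U then (1 : ℝ) else 0) = (Fintype.card V : ℝ) - U.card := by
    have h3 : (∑ a : V, if a ∉ U then (1 : ℝ) else 0) + (∑ a : V, if a ∈ U then (1 : ℝ) else 0) =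
        Fintype.card V := by
      rw [← sum_add_distrib]
      have : ∀ a : V, (if a ∉ U then (1 : ℝ) else 0) + (if a ∈ U then (1 : ℝ) else 0) = 1 := by
        intro a
        by_cases ha : a ∈ U <;> simp [ha]
      simp_rw [this]
      rw [sum_const, card_univ, nsmul_eq_mul, mul_one]
    have h4 : (∑ a : V, if a ∈ U then (1 : ℝ) else 0) = U.card := by
      rw [Finset.sum_ite_mem, Finset.univ_inter, Finset.sum_const, nsmul_eq_mul, mul_one]
    linarith
  simp_rw [h1]
  calc (∑ a : V, ∑ b : V, (if a ∉ U then (1 : ℝ) else 0) * (if b ∉ U then (1 : ℝ) else 0) * X) =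
      (∑ a : V, if a ∉ U then (1 : ℝ) else 0) * (∑ b : V, if b ∉ U then (1 : ℝ) else 0) * X := by
        rw [sum_mul_sum, sum_mul]
        refine sum_congr rfl fun a _ => ?_
        rw [sum_mul]
    _ = _ := by
        rw [h2]
        ring

/-- the coefficients -/
noncomputable def co (x y : ℝ) (i q : ℕ) : ℝ := (i.choose q : ℝ) / (q + 1) * x ^ q * y ^ (2 * (i - q))

theorem pascal (x y : ℝ) (i : ℕ) (N : ℕ → ℝ) :
    ∑ q ∈ range (i + 1), co x y i q * (y ^ 2 * N (q + 1)) +
      ∑ q ∈ range (i + 1), co x y i q * ((q + 1) / (q + 2) * x * N (q + 2)) =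
    ∑ q ∈ range (i + 2), co x y (i + 1) q * N (q + 1) := by
  have h1 : ∑ q ∈ range (i + 1), co x y i q * (y ^ 2 * N (q + 1)) =
      ∑ q ∈ range (i + 2), co x y i q * (y ^ 2 * N (q + 1)) := by
    rw [sum_range_succ _ (i + 1)]
    have : co x y i (i + 1) = 0 := by
      unfold co
      rw [Nat.choose_succ_self]
      simp
    rw [this]
    ring
  rw [h1, sum_range_succ' _ (i + 1), sum_range_succ' (fun q => co x y (i + 1) q * N (q + 1)) (i + 1)]
  have h2 : co x y i 0 * (y ^ 2 * N (0 + 1)) = co x y (i + 1) 0 * N (0 + 1) := by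
    unfold co
    simp only [Nat.choose_zero_right, Nat.sub_zero, pow_zero]
    ring
  rw [h2]
  have h3 : ∑ q ∈ range (i + 1), co x y i (q + 1) * (y ^ 2 * N (q + 1 + 1)) +
      ∑ q ∈ range (i + 1), co x y i q * ((q + 1) / (q + 2) * x * N (q + 2)) =
      ∑ q ∈ range (i + 1), co x y (i + 1) (q + 1) * N (q + 1 + 1) := by
    rw [← sum_add_distrib]
    refine sum_congr rfl fun q hq => ?_
    have hq' : q ≤ i := by
      have := mem_range.1 hq
      omega
    unfold co
    have h4 : i + 1 - (q + 1) = i - q := by omega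
    rw [h4, Nat.choose_succ_succ' i q]
    have h5 : (q : ℝ) + 1 ≠ 0 := by positivity
    have h6 : (q : ℝ) + 2 ≠ 0 := by positivity
    rcases hq'.eq_or_lt with rfl | hlt
    · rw [Nat.choose_succ_self]
      push_cast
      have h7 : (q : ℝ) + 1 + 1 = q + 2 := by ring
      rw [h7]
      field_simp
      ring
    · have h7 : 2 * (i - q) = 2 * (i - (q + 1)) + 2 := by omega
      rw [h7]
      push_cast
      have h8 : (q : ℝ) + 1 + 1 = q + 2 := by ring
      rw [h8]
      field_simp
      ring
  linarith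

end N738cl

open N738cl in
theorem closed (hJ : Join) : Closed := by
  intro V _ _ _ i
  induction i with
  | zero =>
    intro g U
    rw [base g U]
    simp
  | succ i ih =>
    intro g U
    classical
    have hn : (0 : ℝ) < Fintype.card V := by exact_mod_cast Fintype.card_pos
    obtain ⟨n, hn'⟩ : ∃ n : ℝ, n = Fintype.card V := ⟨_, rfl⟩
    obtain ⟨u, hu⟩ : ∃ u : ℝ, u = U.card := ⟨_, rfl⟩
    have ih' : ∀ g : Perm V, u * pw i g U =
        ∑ q ∈ range (i + 1), co (2 * u / n ^ 2) (1 - u / n) i q * ntup (q + 1) g U := by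
      intro g
      rw [hu, hn']
      exact ih g U
    have goal : u * pw (i + 1) g U =
        ∑ q ∈ range (i + 2), co (2 * u / n ^ 2) (1 - u / n) (i + 1) q * ntup (q + 1) g U := by
      have h1 : pw (i + 1) g U = (∑ a, ∑ b,
        if (a ∉ U ∧ b ∉ U) ∨ (a ∈ U ∧ b ∈ U ∧ ¬ g.SameCycle a b)
          then pw i (g * swap a b) U else 0) / n ^ 2 := by
        rw [hn']
        rfl
      have h2 : ∀ a b : V, u * (if (a ∉ U ∧ b ∉ U) ∨ (a ∈ U ∧ b ∈ U ∧ ¬ g.SameCycle a b)
          then pw i (g * swap a b) U else 0) =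
          (if a ∉ U ∧ b ∉ U then u * pw i (g * swap a b) U else 0) +
          (if a ∈ U ∧ b ∈ U ∧ ¬ g.SameCycle a b then u * pw i (g * swap a b) U else 0) := by
        intro a b
        by_cases ha : a ∈ U <;> by_cases hb : b ∈ U <;> by_cases hs : g.SameCycle a b <;>
          simp [ha, hb, hs]
      have h3 : ∀ a b : V, (if a ∉ U ∧ b ∉ U then u * pw i (g * swap a b) U else 0) =
          (if a ∉ U ∧ b ∉ U then u * pw i g U else 0) := by
        intro a b
        split_ifs with h
        · rw [ih', ih']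
          refine sum_congr rfl fun q _ => ?_
          rw [ntup_swap (q + 1) g U a b h.1 h.2]
        · rfl
      have h4 : ∀ a b : V,
          (if a ∈ U ∧ b ∈ U ∧ ¬ g.SameCycle a b then u * pw i (g * swap a b) U else 0) =
          ∑ q ∈ range (i + 1), co (2 * u / n ^ 2) (1 - u / n) i q *
            (if a ∈ U ∧ b ∈ U ∧ ¬ g.SameCycle a b then ntup (q + 1) (g * swap a b) U else 0) := by
        intro a b
        split_ifs with h
        · rw [ih']
        · simp
      have h5 : (∑ a : V, ∑ b : V,
          (if a ∈ U ∧ b ∈ U ∧ ¬ g.SameCycle a b then u * pw i (g * swap a b) U else 0)) =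
          ∑ q ∈ range (i + 1), co (2 * u / n ^ 2) (1 - u / n) i q *
            (2 * ((q : ℝ) + 1) / (q + 2) * u * ntup (q + 2) g U) := by
        simp_rw [h4]
        have h6 : ∀ a : V, (∑ b : V, ∑ q ∈ range (i + 1), co (2 * u / n ^ 2) (1 - u / n) i q *
            (if a ∈ U ∧ b ∈ U ∧ ¬ g.SameCycle a b then ntup (q + 1) (g * swap a b) U else 0)) =
            ∑ q ∈ range (i + 1), ∑ b : V, co (2 * u / n ^ 2) (1 - u / n) i q *
            (if a ∈ U ∧ b ∈ U ∧ ¬ g.SameCycle a b then ntup (q + 1) (g * swap a b) U else 0) :=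
          fun a => sum_comm
        simp_rw [h6]
        rw [sum_comm]
        refine sum_congr rfl fun q _ => ?_
        simp_rw [← mul_sum]
        congr 1
        have h7 := hJ V (q + 1) g U (by omega)
        rw [← hu] at h7
        push_cast at h7
        have h8 : (q : ℝ) + 1 + 1 = q + 2 := by ring
        rw [h8] at h7
        convert h7 using 6
      rw [h1, mul_div_assoc', mul_sum]
      simp_rw [mul_sum, h2, h3, sum_add_distrib]
      have hp := pascal (2 * u / n ^ 2) (1 - u / n) i (fun r => ntup r g U)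
      rw [h5, count_out, ih', ← hn', ← hu, ← hp, add_div]
      have hn0 : n ≠ 0 := by
        rw [hn']
        exact hn.ne'
      congr 1
      · rw [mul_sum, sum_div]
        refine sum_congr rfl fun q _ => ?_
        field_simp
      · rw [sum_div]
        refine sum_congr rfl fun q _ => ?_
        have h6 : (q : ℝ) + 2 ≠ 0 := by positivity
        field_simp
    rw [hu, hn'] at goal
    exact goal

end Pool.Agent.N795.ST
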